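import Pool.Agent.H19.TM.Stm
import Pool.Graph.R_pool_sql_team_seeded_1acbe0a2.Y71.GM.Corr
import Pool.Graph.R_pool_sql_team_seeded_1acbe0a2.Y259.GM.Loc

/-!
# The primes above `r` act as independent signs (module TUP)
-/

set_option autoImplicit false

namespace Pool.Agent.H23.TM

open Finset Pool.Agent.Y862.GM Pool.Agent.H19.TM

lemma abs_prod_sub_prod_le (S : Finset ℕ) (a b : ℕ → ℝ) (ha : ∀ p ∈ S, |a p| ≤ 1)
    (hb : ∀ p ∈ S, |b p| ≤ 1) : |∏ p ∈ S, a p - ∏ p ∈ S, b p| ≤ ∑ p ∈ S, |a p - b p| := by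
  induction S using Finset.induction_on with
  | empty => simp
  | insert q S hq ih =>
    have ha' : ∀ p ∈ S, |a p| ≤ 1 := fun p hp => ha p (mem_insert_of_mem hp)
    have hb' : ∀ p ∈ S, |b p| ≤ 1 := fun p hp => hb p (mem_insert_of_mem hp)
    rw [prod_insert hq, prod_insert hq, sum_insert hq]
    have h1 : a q * ∏ p ∈ S, a p - b q * ∏ p ∈ S, b p =
        (a q - b q) * ∏ p ∈ S, a p + b q * (∏ p ∈ S, a p - ∏ p ∈ S, b p) := by ring
    rw [h1]
    refine (abs_add_le _ _).trans (add_le_add ?_ ?_)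
    · rw [abs_mul]
      refine mul_le_of_le_one_right (abs_nonneg _) ?_
      rw [abs_prod]
      exact Finset.prod_le_one (fun _ _ => abs_nonneg _) ha'
    · rw [abs_mul]
      calc |b q| * |∏ p ∈ S, a p - ∏ p ∈ S, b p| ≤ 1 * |∏ p ∈ S, a p - ∏ p ∈ S, b p| :=
            mul_le_mul_of_nonneg_right (hb q (mem_insert_self q S)) (abs_nonneg _)
        _ ≤ _ := by rw [one_mul]; exact ih ha' hb'

lemma pow_one_sub (x : ℝ) (hx0 : 0 ≤ x) (hx1 : x ≤ 1) (n : ℕ) :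
    |(1 - x) ^ n - (1 - n * x)| ≤ (n : ℝ) ^ 2 * x ^ 2 := by
  have h1 : 1 - n * x ≤ (1 - x) ^ n := by
    have := one_add_mul_le_pow (show (-2 : ℝ) ≤ -x by linarith) n
    have e : 1 + (n : ℝ) * -x = 1 - n * x := by ring
    rw [e] at this
    exact this
  have h2 : (1 - x) ^ n ≤ 1 - n * x + (n : ℝ) ^ 2 * x ^ 2 := by
    clear h1
    induction n with
    | zero => simp
    | succ n ih =>
      rw [pow_succ]
      have h3 : (1 - x) ^ n * (1 - x) ≤ (1 - n * x + (n : ℝ) ^ 2 * x ^ 2) * (1 - x) :=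
        mul_le_mul_of_nonneg_right ih (by linarith)
      refine h3.trans ?_
      push_cast
      have h4 : 0 ≤ (n : ℝ) ^ 2 * x ^ 2 * x := by positivity
      have h5 : 0 ≤ (n : ℝ) * x ^ 2 := by positivity
      have h6 : 0 ≤ x ^ 2 := sq_nonneg x
      nlinarith
  rw [abs_of_nonneg (by linarith)]
  linarith

/-- The local factors at the primes above the shifts. -/
lemma local_close {K : ℕ} (g : Fin K → ℕ) (p : ℕ) (hp : p.Prime) (hg : ∀ i, g i < p) :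
    |(∑ n ∈ range (p ^ 2), loc g p n) / (p : ℝ) ^ 2 - ((1 - 1 / (p : ℝ)) ^ 2) ^ (odd g).card| ≤
      (4 * (K : ℝ) ^ 2 + 2 * K) * ((p : ℝ) ^ 2)⁻¹ := by
  have hp0 : (0 : ℝ) < p := by exact_mod_cast hp.pos
  have hp1 : (1 : ℝ) ≤ p := by exact_mod_cast hp.one_lt.le
  rw [(Pool.Agent.Y259.GM.t_LOC K g p hp).2.2.2 hg, ← pow_mul]
  set o := (odd g).card with ho
  set v := (univ.image g).card with hv
  have hov : o ≤ v := Pool.Agent.Y71.GM.card_odd_le g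
  have hvK : v ≤ K := Pool.Agent.Y71.GM.card_im_le g
  have hovR : (o : ℝ) ≤ v := by exact_mod_cast hov
  have hvKR : (v : ℝ) ≤ K := by exact_mod_cast hvK
  have ho0 : (0 : ℝ) ≤ o := Nat.cast_nonneg _
  have hv0 : (0 : ℝ) ≤ v := Nat.cast_nonneg _
  have h1 := pow_one_sub (1 / (p : ℝ)) (by positivity) (by rw [div_le_one hp0]; exact hp1) (2 * o)
  have h2 : ((p : ℝ) ^ 2 - 2 * o * p + 2 * o - v) / (p : ℝ) ^ 2 - (1 - 1 / (p : ℝ)) ^ (2 * o) =
      (2 * o - v) * ((p : ℝ) ^ 2)⁻¹ -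
        ((1 - 1 / (p : ℝ)) ^ (2 * o) - (1 - ((2 * o : ℕ) : ℝ) * (1 / (p : ℝ)))) := by
    push_cast
    field_simp
    ring
  rw [h2]
  have h3 : |(2 * (o : ℝ) - v) * ((p : ℝ) ^ 2)⁻¹| ≤ 2 * K * ((p : ℝ) ^ 2)⁻¹ := by
    rw [abs_mul, abs_of_nonneg (show 0 ≤ ((p : ℝ) ^ 2)⁻¹ by positivity)]
    refine mul_le_mul_of_nonneg_right ?_ (by positivity)
    rw [abs_le]
    constructor <;> linarith
  have h4 : (((2 * o : ℕ) : ℝ)) ^ 2 * (1 / (p : ℝ)) ^ 2 ≤ 4 * (K : ℝ) ^ 2 * ((p : ℝ) ^ 2)⁻¹ := by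
    rw [div_pow, one_pow, one_div]
    refine mul_le_mul_of_nonneg_right ?_ (by positivity)
    push_cast
    have : (o : ℝ) ≤ K := hovR.trans hvKR
    nlinarith
  calc _ ≤ |(2 * (o : ℝ) - v) * ((p : ℝ) ^ 2)⁻¹| +
        |(1 - 1 / (p : ℝ)) ^ (2 * o) - (1 - ((2 * o : ℕ) : ℝ) * (1 / (p : ℝ)))| := abs_sub _ _
    _ ≤ 2 * K * ((p : ℝ) ^ 2)⁻¹ + 4 * (K : ℝ) ^ 2 * ((p : ℝ) ^ 2)⁻¹ :=
        add_le_add h3 (h1.trans h4)
    _ = _ := by ring

lemma filter_pr {y r : ℕ} (hry : r ≤ y) : (pr y).filter (fun p => p ≤ r) = pr r := by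
  ext p
  rw [mem_filter, Pool.Agent.Y71.GM.mem_pr, Pool.Agent.Y71.GM.mem_pr]
  constructor
  · rintro ⟨⟨_, h1⟩, h2⟩
    exact ⟨h2, h1⟩
  · rintro ⟨h1, h2⟩
    exact ⟨⟨h1.trans hry, h2⟩, h1⟩

lemma split_pr {y r : ℕ} (hry : r ≤ y) (f : ℕ → ℝ) :
    ∏ p ∈ pr y, f p = (∏ p ∈ pr r, f p) * ∏ p ∈ (pr y).filter (fun p => ¬ p ≤ r), f p := by
  rw [← filter_pr hry, Finset.prod_filter_mul_prod_filter_not]

lemma V_pr_pos (r : ℕ) : 0 < V (pr r) := by
  refine Finset.prod_pos fun p hp => ?_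
  have hp' := (Pool.Agent.Y71.GM.mem_pr.1 hp).2
  have h1 : (1 : ℝ) < p := by exact_mod_cast hp'.one_lt
  have h2 : (1 : ℝ) / p < 1 := by rw [div_lt_one (by linarith)]; exact h1
  have : 0 < 1 - 1 / (p : ℝ) := by linarith
  positivity

/-- **TUP** -/
theorem t_TUP (hBR : S_BR) : S_TUP := by
  intro K
  obtain ⟨A0, hA0⟩ := hBR (2 * K)
  refine ⟨2 * (4 * K ^ 2 + 2 * K), max A0 3, ?_⟩
  intro y r hAr hry lam hlam Z Y hY g hg
  have hA0r : A0 ≤ r := le_trans (le_max_left _ _) hAr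
  have h3r : 3 ≤ r := le_trans (le_max_right _ _) hAr
  have hA0y : A0 ≤ y := hA0r.trans hry
  have h3y : 3 ≤ y := h3r.trans hry
  have h3y' : (3 : ℝ) ≤ y := by exact_mod_cast h3y
  have hr0 : (0 : ℝ) < r := by exact_mod_cast (by omega : 0 < r)
  have hly1 : 1 ≤ Real.log y := by
    rw [← Real.log_exp 1]
    refine Real.log_le_log (Real.exp_pos _) ?_
    linarith [Real.exp_one_lt_d9]
  have hlam0 : 0 ≤ lam := (Real.log_nonneg hly1).trans hlam
  have hY' : (y : ℝ) ^ (A0 * lam) ≤ Y := by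
    refine le_trans (Real.rpow_le_rpow_of_exponent_le (by linarith) ?_) hY
    refine mul_le_mul_of_nonneg_right ?_ hlam0
    exact_mod_cast le_max_left _ _
  have hY0 : (0 : ℝ) < Y := lt_of_lt_of_le (Real.rpow_pos_of_pos (by linarith) _) hY'
  have hL := Pool.Agent.Y259.GM.t_LOC
  -- the two applications of the fundamental lemma
  have hb1 := hA0 y hA0y lam hlam Z Y hY' (fun p n => loc g p n - 1)
    (fun p hp n => by rw [(hL K g p (Pool.Agent.Y71.GM.mem_pr.1 hp).2).1 n])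
    (fun p hp n => by
      rw [add_sub_cancel]
      exact (hL K g p (Pool.Agent.Y71.GM.mem_pr.1 hp).2).2.1 n)
    (fun p hp => (hL K g p (Pool.Agent.Y71.GM.mem_pr.1 hp).2).2.2.1)
  have hb2 := hA0 y hA0y lam hlam Z Y hY' (fun p n => if p ≤ r then loc g p n - 1 else 0)
    (fun p hp n => by
      split_ifs
      · rw [(hL K g p (Pool.Agent.Y71.GM.mem_pr.1 hp).2).1 n]
      · rfl)
    (fun p hp n => by
      split_ifs
      · rw [add_sub_cancel]
        exact (hL K g p (Pool.Agent.Y71.GM.mem_pr.1 hp).2).2.1 n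
      · simp)
    (fun p hp => by
      split_ifs
      · exact (hL K g p (Pool.Agent.Y71.GM.mem_pr.1 hp).2).2.2.1
      · simp only [abs_zero, Finset.sum_const_zero]
        positivity)
  set P : ℕ → ℝ := fun z => ∏ p ∈ pr z, ((∑ n ∈ range (p ^ 2), loc g p n) / (p : ℝ) ^ 2) with hPdef
  have e1 : ∑ n ∈ Ioc Z (Z + Y), ∏ p ∈ pr y, (1 + (loc g p n - 1)) =
      ∑ n ∈ Ioc Z (Z + Y), ∏ i, mu y (n + g i) := by
    refine Finset.sum_congr rfl fun n _ => ?_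
    rw [Pool.Agent.Y71.GM.prod_mu]
    exact Finset.prod_congr rfl fun p _ => by rw [add_sub_cancel]
  have e2 : ∏ p ∈ pr y, (1 + (∑ n ∈ range (p ^ 2), (loc g p n - 1)) / (p : ℝ) ^ 2) = P y :=
    Finset.prod_congr rfl fun p hp => Pool.Agent.Y71.GM.fac g p (Pool.Agent.Y71.GM.mem_pr.1 hp).2
  have e3 : ∑ n ∈ Ioc Z (Z + Y), ∏ p ∈ pr y, (1 + (if p ≤ r then loc g p n - 1 else 0)) =
      ∑ n ∈ Ioc Z (Z + Y), ∏ i, mu r (n + g i) := by
    refine Finset.sum_congr rfl fun n _ => ?_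
    rw [Pool.Agent.Y71.GM.prod_mu, ← filter_pr hry, Finset.prod_filter]
    refine Finset.prod_congr rfl fun p _ => ?_
    split_ifs
    · rw [add_sub_cancel]
    · rw [add_zero]
  have e4 : ∏ p ∈ pr y, (1 + (∑ n ∈ range (p ^ 2), (if p ≤ r then loc g p n - 1 else 0)) /
      (p : ℝ) ^ 2) = P r := by
    rw [hPdef]
    simp only
    rw [← filter_pr hry, Finset.prod_filter]
    refine Finset.prod_congr rfl fun p hp => ?_
    split_ifs
    · exact Pool.Agent.Y71.GM.fac g p (Pool.Agent.Y71.GM.mem_pr.1 hp).2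
    · simp
  rw [e1, e2] at hb1
  rw [e3, e4] at hb2
  -- the main term
  set S := (pr y).filter (fun p => ¬ p ≤ r) with hS
  have hPr1 : |P r| ≤ 1 := by
    rw [hPdef]
    simp only
    rw [abs_prod]
    exact Finset.prod_le_one (fun _ _ => abs_nonneg _)
      fun p hp => Pool.Agent.Y71.GM.fac_le hL g p (Pool.Agent.Y71.GM.mem_pr.1 hp).2
  have hVr := V_pr_pos r
  set d : ℝ := V (pr y) / V (pr r) with hd
  have hdS : d = ∏ p ∈ S, (1 - 1 / (p : ℝ)) ^ 2 := by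
    rw [hd, V, split_pr hry (fun p => (1 - 1 / (p : ℝ)) ^ 2)]
    rw [show (∏ p ∈ pr r, (1 - 1 / (p : ℝ)) ^ 2) = V (pr r) from rfl, mul_comm,
      mul_div_assoc, div_self hVr.ne', mul_one]
  have hbnd : ∀ p ∈ S, |((1 - 1 / (p : ℝ)) ^ 2)| ≤ 1 := by
    intro p hp
    have hp' := (Pool.Agent.Y71.GM.mem_pr.1 (mem_filter.1 hp).1).2
    have h1 : (1 : ℝ) < p := by exact_mod_cast hp'.one_lt
    have h2 : (1 : ℝ) / p < 1 := by rw [div_lt_one (by linarith)]; exact h1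
    have h3 : (0 : ℝ) ≤ 1 / p := by positivity
    rw [abs_of_nonneg (sq_nonneg _)]
    nlinarith
  have hd1 : |d| ≤ 1 := by
    rw [hdS, abs_prod]
    exact Finset.prod_le_one (fun _ _ => abs_nonneg _) hbnd
  set o := (odd g).card with ho
  have hR : |∏ p ∈ S, ((∑ n ∈ range (p ^ 2), loc g p n) / (p : ℝ) ^ 2) - d ^ o| ≤
      2 * (4 * (K : ℝ) ^ 2 + 2 * K) / r := by
    rw [hdS, ← Finset.prod_pow]
    refine (abs_prod_sub_prod_le S _ _ ?_ ?_).trans ?_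
    · intro p hp
      exact Pool.Agent.Y71.GM.fac_le hL g p (Pool.Agent.Y71.GM.mem_pr.1 (mem_filter.1 hp).1).2
    · intro p hp
      rw [abs_pow]
      exact pow_le_one₀ (abs_nonneg _) (hbnd p hp)
    · calc ∑ p ∈ S, |(∑ n ∈ range (p ^ 2), loc g p n) / (p : ℝ) ^ 2 -
            ((1 - 1 / (p : ℝ)) ^ 2) ^ o|
          ≤ ∑ p ∈ S, (4 * (K : ℝ) ^ 2 + 2 * K) * ((p : ℝ) ^ 2)⁻¹ := by
            refine Finset.sum_le_sum fun p hp => ?_
            exact local_close g p (Pool.Agent.Y71.GM.mem_pr.1 (mem_filter.1 hp).1).2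
              (fun i => lt_of_le_of_lt (hg i) (not_le.1 (mem_filter.1 hp).2))
        _ = (4 * (K : ℝ) ^ 2 + 2 * K) * ∑ p ∈ S, ((p : ℝ) ^ 2)⁻¹ := by rw [Finset.mul_sum]
        _ ≤ (4 * (K : ℝ) ^ 2 + 2 * K) * (2 / r) := by
            refine mul_le_mul_of_nonneg_left ?_ (by positivity)
            calc ∑ p ∈ S, ((p : ℝ) ^ 2)⁻¹ ≤ ∑ p ∈ Ioo r (y + 1), ((p : ℝ) ^ 2)⁻¹ := by
                  refine Finset.sum_le_sum_of_subset_of_nonneg ?_ fun p _ _ => by positivity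
                  intro p hp
                  have h1 := Pool.Agent.Y71.GM.mem_pr.1 (mem_filter.1 hp).1
                  rw [mem_Ioo]
                  exact ⟨not_le.1 (mem_filter.1 hp).2, Nat.lt_succ_iff.2 h1.1⟩
              _ ≤ 2 / ((r : ℝ) + 1) := sum_Ioo_inv_sq_le r (y + 1)
              _ ≤ 2 / r := by
                  apply div_le_div_of_nonneg_left (by norm_num) hr0
                  linarith
        _ = _ := by ring
  have hPy : P y = P r * ∏ p ∈ S, ((∑ n ∈ range (p ^ 2), loc g p n) / (p : ℝ) ^ 2) :=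
    split_pr hry _
  have hPdiff : |P y - d ^ o * P r| ≤ 2 * (4 * (K : ℝ) ^ 2 + 2 * K) / r := by
    have h1 : P y - d ^ o * P r =
        P r * (∏ p ∈ S, ((∑ n ∈ range (p ^ 2), loc g p n) / (p : ℝ) ^ 2) - d ^ o) := by
      rw [hPy]; ring
    rw [h1, abs_mul]
    exact (mul_le_of_le_one_left (abs_nonneg _) hPr1).trans hR
  set X1 := ∑ x ∈ Ioc Z (Z + Y), ∏ i, mu y (x + g i) with hX1
  set X2 := ∑ x ∈ Ioc Z (Z + Y), ∏ i, mu r (x + g i) with hX2
  have hdo : |d ^ o| ≤ 1 := by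
    rw [abs_pow]
    exact pow_le_one₀ (abs_nonneg _) hd1
  have hmain : |X1 / Y - d ^ o * (X2 / Y)| ≤
      2 * (4 * (K : ℝ) ^ 2 + 2 * K) / r + 2 * Real.exp (-lam) := by
    have h1 : X1 / Y - d ^ o * (X2 / Y) =
        (X1 / Y - P y) + (P y - d ^ o * P r) + (-(d ^ o * (X2 / Y - P r))) := by ring
    rw [h1]
    have h2 : |-(d ^ o * (X2 / Y - P r))| ≤ Real.exp (-lam) := by
      rw [abs_neg, abs_mul]
      exact (mul_le_of_le_one_left (abs_nonneg _) hdo).trans hb2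
    calc _ ≤ |X1 / Y - P y| + |P y - d ^ o * P r| + |-(d ^ o * (X2 / Y - P r))| :=
          (abs_add_le _ _).trans (add_le_add (abs_add_le _ _) le_rfl)
      _ ≤ Real.exp (-lam) + 2 * (4 * (K : ℝ) ^ 2 + 2 * K) / r + Real.exp (-lam) :=
          add_le_add (add_le_add hb1 hPdiff) h2
      _ = _ := by ring
  have h5 : X1 - d ^ o * X2 = (X1 / Y - d ^ o * (X2 / Y)) * Y := by
    field_simp
  rw [h5, abs_mul, abs_of_pos hY0]
  refine mul_le_mul_of_nonneg_right (hmain.trans (le_of_eq ?_)) hY0.le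
  push_cast
  ring

end Pool.Agent.H23.TM
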