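import Pool.Agent.H23.TM.MomA

/-!
# The moments over a full period (module MOM)
-/

set_option autoImplicit false

namespace Pool.Agent.H23.TM

open Finset Pool.Agent.Y862.GM Pool.Agent.H19.TM Pool.Agent.Y672.GM

/-- The product of the local factors. -/
noncomputable def ff (P : Finset ℕ) (n : ℕ) : ℝ := ∏ p ∈ P, muP p n

lemma muP_eq (p n : ℕ) (hp : p.Prime) :
    muP p n = 1 - 2 * (if p ∣ n then (1 : ℝ) else 0) + (if p ^ 2 ∣ n then (1 : ℝ) else 0) := by
  unfold muP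
  by_cases h2 : p ^ 2 ∣ n
  · have h1 : p ∣ n := (dvd_pow_self p two_ne_zero).trans h2
    rw [if_pos h2, if_pos h1, if_pos h2]; ring
  · by_cases h1 : p ∣ n
    · rw [if_neg h2, if_pos h1, if_pos h1, if_neg h2]; ring
    · rw [if_neg h2, if_neg h1, if_neg h1, if_neg h2]; ring

lemma muP_per (p n : ℕ) : muP p (n + p ^ 2) = muP p n := by
  unfold muP
  have h1 : p ^ 2 ∣ n + p ^ 2 ↔ p ^ 2 ∣ n := Nat.dvd_add_self_right
  have h2 : p ∣ n + p ^ 2 ↔ p ∣ n := (Nat.dvd_add_left (dvd_pow_self p two_ne_zero))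
  simp only [h1, h2]

lemma ff_per (P : Finset ℕ) : Function.Periodic (ff P) (∏ p ∈ P, p ^ 2) :=
  prod_periodic P muP fun p _ n => muP_per p n

lemma ff_mul {P : Finset ℕ} (hP : ∀ q ∈ P, q.Prime) {d : ℕ} (hd : ∀ q ∈ P, Nat.Coprime q d)
    (n : ℕ) : ff P (d * n) = ff P n := by
  refine Finset.prod_congr rfl fun q hq => ?_
  unfold muP
  have h1 : q ^ 2 ∣ d * n ↔ q ^ 2 ∣ n := Nat.Coprime.dvd_mul_left ((hd q hq).pow_left 2)
  have h2 : q ∣ d * n ↔ q ∣ n := Nat.Coprime.dvd_mul_left (hd q hq)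
  simp only [h1, h2]

lemma muP_abs (p n : ℕ) : |muP p n| ≤ 1 := by
  unfold muP
  split_ifs <;> norm_num

lemma V_nonneg (P : Finset ℕ) : 0 ≤ V P := Finset.prod_nonneg fun p _ => sq_nonneg _

lemma V_le_one {P : Finset ℕ} (hP : ∀ q ∈ P, q.Prime) : V P ≤ 1 := by
  refine Finset.prod_le_one (fun p _ => sq_nonneg _) fun p hp => ?_
  have h1 : (1 : ℝ) ≤ p := by exact_mod_cast (hP p hp).one_lt.le
  have h2 : (1 : ℝ) / p ≤ 1 := by rw [div_le_one (by linarith)]; exact h1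
  have h3 : (0 : ℝ) ≤ 1 / p := by positivity
  nlinarith

/-- the constant -/
noncomputable def C1 (m : ℕ) : ℝ := 4 * 144 ^ m
/-- the constant -/
noncomputable def Cm (m : ℕ) : ℝ := 2 ^ (2 * m) * (2 * (1 + C1 m) + C1 m * 2 ^ m)

lemma C1_nonneg (m : ℕ) : 0 ≤ C1 m := by unfold C1; positivity
lemma Cm_nonneg (m : ℕ) : 0 ≤ Cm m := by have := C1_nonneg m; unfold Cm; positivity

section step

variable {m : ℕ} {P : Finset ℕ} {p : ℕ} {G : ℝ}

/-- The moments along arithmetic progressions. -/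
lemma ap_moment (hP : ∀ q ∈ P, q.Prime)
    (ih : ∀ N : ℕ, ∑ n ∈ range (∏ p ∈ P, p ^ 2),
      (∑ j ∈ range N, ff P (n + j) - N * V P) ^ (2 * m) ≤ (∏ p ∈ P, (p : ℝ) ^ 2) * G * (N : ℝ) ^ m)
    {d : ℕ} (hd : ∀ q ∈ P, Nat.Coprime q d) (j0 N1 : ℕ) :
    ∑ a ∈ range (∏ p ∈ P, p ^ 2),
      (∑ i ∈ range N1, ff P (a + (j0 + d * i)) - N1 * V P) ^ (2 * m) ≤
        (∏ p ∈ P, (p : ℝ) ^ 2) * G * (N1 : ℝ) ^ m := by
  set M := ∏ p ∈ P, p ^ 2 with hM
  have hM0 : 0 < M := Finset.prod_pos fun q hq => pow_pos (hP q hq).pos 2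
  have hdM : Nat.Coprime d M := by
    refine Nat.Coprime.prod_right fun q hq => ?_
    exact (Nat.Coprime.pow_left 2 (hd q hq)).symm
  have hff : Function.Periodic (ff P) M := ff_per P
  set Ψ : ℕ → ℝ := fun a => (∑ i ∈ range N1, ff P (a + d * i) - N1 * V P) ^ (2 * m) with hΨ
  have hΨper : Function.Periodic Ψ M := by
    intro a
    simp only [hΨ]
    congr 2
    refine Finset.sum_congr rfl fun i _ => ?_
    rw [add_right_comm]
    exact hff _
  have h1 : ∑ a ∈ range M, (∑ i ∈ range N1, ff P (a + (j0 + d * i)) - N1 * V P) ^ (2 * m) =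
      ∑ a ∈ range M, Ψ (j0 + a) := by
    refine Finset.sum_congr rfl fun a _ => ?_
    simp only [hΨ]
    congr 2
    refine Finset.sum_congr rfl fun i _ => ?_
    congr 1
    ring
  rw [h1, sum_shift M Ψ hΨper j0, ← sum_affine hM0 hdM Ψ hΨper]
  refine le_trans (le_of_eq ?_) (ih N1)
  refine Finset.sum_congr rfl fun a _ => ?_
  simp only [hΨ]
  congr 2
  refine Finset.sum_congr rfl fun i _ => ?_
  rw [← mul_add]
  exact ff_mul hP hd _

variable (hP : ∀ q ∈ P, q.Prime) (hp : p.Prime) (hpP : p ∉ P) (hG : 1 ≤ G)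
  (ih : ∀ N : ℕ, ∑ n ∈ range (∏ p ∈ P, p ^ 2),
      (∑ j ∈ range N, ff P (n + j) - N * V P) ^ (2 * m) ≤ (∏ p ∈ P, (p : ℝ) ^ 2) * G * (N : ℝ) ^ m)

/-- the number of the `j < N` with `p ∣ c + j` -/
noncomputable def cnt (d c N : ℕ) : ℕ := ((range N).filter (fun j => d ∣ c + j)).card

include hP hp hpP hG ih in
/-- The moments of the fluctuation. -/
lemma delta_moment (N : ℕ) (hN : 1 ≤ N) (c : ℕ) :
    ∑ a ∈ range (∏ p ∈ P, p ^ 2),
      (∑ j ∈ range N, ff P (a + j) * (muP p (c + j) - (1 - 1 / (p : ℝ)) ^ 2)) ^ (2 * m) ≤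
      C1 m * ((∏ p ∈ P, (p : ℝ) ^ 2) * G) * ((cnt p c N : ℝ) + N / p) ^ m := by
  set M := ∏ p ∈ P, p ^ 2 with hM
  set W : ℝ := (∏ p ∈ P, (p : ℝ) ^ 2) * G with hW
  set V' := V P with hV'
  set mp : ℝ := (1 - 1 / (p : ℝ)) ^ 2 with hmp
  set τ : ℝ := (cnt p c N : ℝ) + N / p with hτ
  have hp1 : (1 : ℝ) < p := by exact_mod_cast hp.one_lt
  have hp0 : (0 : ℝ) < p := by linarith
  have hNR : (1 : ℝ) ≤ N := by exact_mod_cast hN
  have hQ : (M : ℝ) = ∏ p ∈ P, (p : ℝ) ^ 2 := by rw [hM]; push_cast; rfl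
  have hQ0 : 0 ≤ ∏ p ∈ P, (p : ℝ) ^ 2 := Finset.prod_nonneg fun q _ => sq_nonneg _
  have hW0 : 0 ≤ W := mul_nonneg hQ0 (by linarith)
  have hcop : ∀ q ∈ P, Nat.Coprime q p := fun q hq =>
    (Nat.coprime_primes (hP q hq) hp).mpr (fun h => hpP (h ▸ hq))
  have hcop2 : ∀ q ∈ P, Nat.Coprime q (p ^ 2) := fun q hq => (hcop q hq).pow_right 2
  obtain ⟨j1, hs1, hb1⟩ := ap_struct p hp.pos c N
  obtain ⟨j2, hs2, hb2⟩ := ap_struct (p ^ 2) (pow_pos hp.pos 2) c N
  set N1 := ((range N).filter (fun j => p ∣ c + j)).card with hN1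
  set N2 := ((range N).filter (fun j => p ^ 2 ∣ c + j)).card with hN2
  have hcnt : cnt p c N = N1 := rfl
  rw [hcnt] at hτ
  have hN21 : N2 ≤ N1 := by
    refine Finset.card_le_card fun j hj => ?_
    rw [mem_filter] at hj ⊢
    exact ⟨hj.1, (dvd_pow_self p two_ne_zero).trans hj.2⟩
  have hN1τ : (N1 : ℝ) ≤ τ := by rw [hτ]; exact le_add_of_nonneg_right (by positivity)
  have hNpτ : (N : ℝ) / p ≤ τ := by rw [hτ]; exact le_add_of_nonneg_left (by positivity)
  have hτ0 : 0 ≤ τ := le_trans (by positivity) hN1τ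
  set Eg : ℝ := 1 - mp with hEg
  have hEg' : Eg = 2 / p - 1 / (p : ℝ) ^ 2 := by
    rw [hEg, hmp]
    field_simp
    ring
  have hEg0 : 0 ≤ Eg := by
    rw [hEg', div_sub_div _ _ hp0.ne' (by positivity)]
    apply div_nonneg _ (by positivity)
    nlinarith
  have hEg2 : Eg ≤ 2 / p := by
    rw [hEg']
    have : 0 ≤ 1 / (p : ℝ) ^ 2 := by positivity
    linarith
  set e : ℝ := N * Eg - 2 * N1 + N2 with he
  have he2 : e ^ 2 ≤ 9 * τ := by
    rcases Nat.eq_zero_or_pos N1 with h0 | h0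
    · have h20 : N2 = 0 := Nat.le_zero.mp (h0 ▸ hN21)
      have hNp : (N : ℝ) / p ≤ 1 := by
        rw [h0] at hb1
        rw [Nat.cast_zero, zero_sub, abs_neg] at hb1
        exact (le_abs_self _).trans hb1
      have h1 : e = N * Eg := by rw [he, h0, h20]; simp
      have h2 : N * Eg ≤ 2 * (N / p) := by
        calc (N : ℝ) * Eg ≤ N * (2 / p) := mul_le_mul_of_nonneg_left hEg2 (by positivity)
          _ = 2 * (N / p) := by ring
      have h3 : 0 ≤ N * Eg := by positivity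
      have h4 : 0 ≤ (N : ℝ) / p := by positivity
      rw [h1]
      nlinarith
    · have h1 : (1 : ℝ) ≤ τ := le_trans (by exact_mod_cast h0) hN1τ
      have h2 : e = 2 * (N / p - N1) - (N / (p : ℝ) ^ 2 - N2) := by
        rw [he, hEg']
        field_simp
        ring
      have hb2' : |(N2 : ℝ) - N / (p : ℝ) ^ 2| ≤ 1 := by exact_mod_cast hb2
      rw [abs_le] at hb1 hb2'
      have h3 : |e| ≤ 3 := by
        rw [h2, abs_le]
        constructor <;> linarith
      have h4 : e ^ 2 ≤ 9 := by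
        rw [← sq_abs]
        nlinarith [abs_nonneg e]
      linarith
  -- the decomposition
  have hdec : ∀ a, ∑ j ∈ range N, ff P (a + j) * (muP p (c + j) - mp) =
      (Eg * (∑ j ∈ range N, ff P (a + j) - N * V') +
        (-2 * (∑ i ∈ range N1, ff P (a + (j1 + p * i)) - N1 * V'))) +
      ((∑ i ∈ range N2, ff P (a + (j2 + p ^ 2 * i)) - N2 * V') + V' * e) := by
    intro a
    have h1 : ∑ j ∈ range N, ff P (a + j) * (muP p (c + j) - mp) =
        Eg * ∑ j ∈ range N, ff P (a + j) -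
          2 * ∑ j ∈ (range N).filter (fun j => p ∣ c + j), ff P (a + j) +
          ∑ j ∈ (range N).filter (fun j => p ^ 2 ∣ c + j), ff P (a + j) := by
      rw [Finset.sum_filter, Finset.sum_filter, Finset.mul_sum, Finset.mul_sum,
        ← Finset.sum_sub_distrib, ← Finset.sum_add_distrib]
      refine Finset.sum_congr rfl fun j _ => ?_
      rw [muP_eq p (c + j) hp, hEg]
      split_ifs <;> ring
    rw [h1, hs1 (fun j => ff P (a + j)), hs2 (fun j => ff P (a + j)), he]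
    ring
  have hEgm : Eg ^ (2 * m) * (N : ℝ) ^ m ≤ 4 ^ m * τ ^ m := by
    rw [pow_mul, ← mul_pow, ← mul_pow]
    refine pow_le_pow_left₀ (by positivity) ?_ m
    have h1 : Eg ^ 2 ≤ 4 / p := by
      have h2 : Eg ^ 2 ≤ (2 / p) ^ 2 := pow_le_pow_left₀ hEg0 hEg2 2
      refine h2.trans ?_
      rw [div_pow, div_le_div_iff₀ (by positivity) hp0]
      nlinarith
    calc Eg ^ 2 * N ≤ 4 / p * N := mul_le_mul_of_nonneg_right h1 (by positivity)
      _ = 4 * (N / p) := by ring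
      _ ≤ 4 * τ := mul_le_mul_of_nonneg_left hNpτ (by norm_num)
  have hN1m : (N1 : ℝ) ^ m ≤ τ ^ m := pow_le_pow_left₀ (by positivity) hN1τ m
  have hN2m : (N2 : ℝ) ^ m ≤ τ ^ m := by
    refine pow_le_pow_left₀ (by positivity) (le_trans ?_ hN1τ) m
    exact_mod_cast hN21
  have hem : (V' * e) ^ (2 * m) ≤ 9 ^ m * τ ^ m := by
    rw [pow_mul, ← mul_pow]
    refine pow_le_pow_left₀ (by positivity) ?_ m
    have h1 : V' ^ 2 ≤ 1 := by
      have := V_nonneg P
      have := V_le_one hP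
      nlinarith
    rw [mul_pow]
    calc V' ^ 2 * e ^ 2 ≤ 1 * e ^ 2 := mul_le_mul_of_nonneg_right h1 (sq_nonneg _)
      _ = e ^ 2 := one_mul _
      _ ≤ 9 * τ := he2
  have h1 := ih N
  have h2 := ap_moment hP ih hcop j1 N1
  have h3 := ap_moment hP ih hcop2 j2 N2
  calc ∑ a ∈ range M, (∑ j ∈ range N, ff P (a + j) * (muP p (c + j) - mp)) ^ (2 * m)
      ≤ ∑ a ∈ range M, 4 ^ (2 * m) *
        ((Eg * (∑ j ∈ range N, ff P (a + j) - N * V')) ^ (2 * m) +
          (-2 * (∑ i ∈ range N1, ff P (a + (j1 + p * i)) - N1 * V')) ^ (2 * m) +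
          (∑ i ∈ range N2, ff P (a + (j2 + p ^ 2 * i)) - N2 * V') ^ (2 * m) +
          (V' * e) ^ (2 * m)) := by
        refine Finset.sum_le_sum fun a _ => ?_
        rw [hdec a]
        exact four_ineq m _ _ _ _
    _ = 4 ^ (2 * m) * (Eg ^ (2 * m) * ∑ a ∈ range M,
          (∑ j ∈ range N, ff P (a + j) - N * V') ^ (2 * m) +
          2 ^ (2 * m) * ∑ a ∈ range M,
            (∑ i ∈ range N1, ff P (a + (j1 + p * i)) - N1 * V') ^ (2 * m) +
          ∑ a ∈ range M, (∑ i ∈ range N2, ff P (a + (j2 + p ^ 2 * i)) - N2 * V') ^ (2 * m) +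
          M * (V' * e) ^ (2 * m)) := by
        rw [← Finset.mul_sum, Finset.sum_add_distrib, Finset.sum_add_distrib,
          Finset.sum_add_distrib, Finset.sum_const, card_range, nsmul_eq_mul]
        simp only [mul_pow, ← Finset.mul_sum]
        have : (-2 : ℝ) ^ (2 * m) = 2 ^ (2 * m) := by rw [pow_mul, pow_mul]; norm_num
        rw [this]
    _ ≤ 4 ^ (2 * m) * (Eg ^ (2 * m) * (W * (N : ℝ) ^ m) + 2 ^ (2 * m) * (W * (N1 : ℝ) ^ m) +
          W * (N2 : ℝ) ^ m + W * (9 ^ m * τ ^ m)) := by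
        have h4 : (M : ℝ) * (V' * e) ^ (2 * m) ≤ W * (9 ^ m * τ ^ m) := by
          refine mul_le_mul ?_ hem ?_ hW0
          · rw [hQ, hW]
            exact le_mul_of_one_le_right hQ0 hG
          · rw [pow_mul]; positivity
        have h5 : 0 ≤ Eg ^ (2 * m) := by positivity
        gcongr
    _ ≤ 4 ^ (2 * m) * (W * (4 ^ m * τ ^ m) + 2 ^ (2 * m) * (W * τ ^ m) +
          W * τ ^ m + W * (9 ^ m * τ ^ m)) := by
        have h5 : Eg ^ (2 * m) * (W * (N : ℝ) ^ m) ≤ W * (4 ^ m * τ ^ m) := by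
          calc Eg ^ (2 * m) * (W * (N : ℝ) ^ m) = W * (Eg ^ (2 * m) * (N : ℝ) ^ m) := by ring
            _ ≤ W * (4 ^ m * τ ^ m) := mul_le_mul_of_nonneg_left hEgm hW0
        gcongr
    _ = 16 ^ m * (4 ^ m + 4 ^ m + 1 + 9 ^ m) * (W * τ ^ m) := by
        have e1 : (4 : ℝ) ^ (2 * m) = 16 ^ m := by rw [pow_mul]; norm_num
        have e2 : (2 : ℝ) ^ (2 * m) = 4 ^ m := by rw [pow_mul]; norm_num
        rw [e1, e2]
        ring
    _ ≤ C1 m * (W * τ ^ m) := by
        refine mul_le_mul_of_nonneg_right ?_ (by positivity)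
        have e1 : (4 : ℝ) ^ m ≤ 9 ^ m := pow_le_pow_left₀ (by norm_num) (by norm_num) m
        have e2 : (1 : ℝ) ≤ 9 ^ m := one_le_pow₀ (by norm_num)
        have e3 : (144 : ℝ) ^ m = 16 ^ m * 9 ^ m := by rw [← mul_pow]; norm_num
        rw [C1, e3]
        have e4 : (0 : ℝ) < 16 ^ m := by positivity
        nlinarith
    _ = C1 m * W * τ ^ m := by ring

include hP hp hpP hG ih in
/-- The step of the induction. -/
lemma step_moment (hm : 1 ≤ m) (N : ℕ) (hN : 1 ≤ N) :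
    ∑ n ∈ range ((∏ q ∈ P, q ^ 2) * p ^ 2),
      (∑ j ∈ range N, ff P (n + j) * muP p (n + j) - N * (V P * (1 - 1 / (p : ℝ)) ^ 2)) ^ (2 * m) ≤
      ((∏ q ∈ P, (q : ℝ) ^ 2) * p ^ 2) * (G * (1 + Cm m / p)) * (N : ℝ) ^ m := by
  obtain ⟨r, rfl⟩ : ∃ r, m = r + 1 := ⟨m - 1, by omega⟩
  set M := ∏ q ∈ P, q ^ 2 with hM
  set W : ℝ := (∏ q ∈ P, (q : ℝ) ^ 2) * G with hW
  set V' := V P with hV'
  set mp : ℝ := (1 - 1 / (p : ℝ)) ^ 2 with hmp
  have hp1 : (1 : ℝ) < p := by exact_mod_cast hp.one_lt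
  have hp0 : (0 : ℝ) < p := by linarith
  have hNR : (1 : ℝ) ≤ N := by exact_mod_cast hN
  have hN0 : (0 : ℝ) < N := by linarith
  have hM0 : 0 < M := Finset.prod_pos fun q hq => pow_pos (hP q hq).pos 2
  have hQ0 : 0 ≤ ∏ p ∈ P, (p : ℝ) ^ 2 := Finset.prod_nonneg fun q _ => sq_nonneg _
  have hW0 : 0 ≤ W := mul_nonneg hQ0 (by linarith)
  have hmp0 : 0 ≤ mp := sq_nonneg _
  have hmp1 : mp ≤ 1 := by
    have h2 : (1 : ℝ) / p ≤ 1 := by rw [div_le_one hp0]; exact hp1.le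
    have h3 : (0 : ℝ) ≤ 1 / p := by positivity
    rw [hmp]
    nlinarith
  have hcop : Nat.Coprime M (p ^ 2) := by
    refine Nat.Coprime.prod_left fun q hq => ?_
    exact Nat.Coprime.pow 2 2 ((Nat.coprime_primes (hP q hq) hp).mpr (fun h => hpP (h ▸ hq)))
  have hper : Function.Periodic (ff P) M := ff_per P
  have hmuper : Function.Periodic (muP p) (p ^ 2) := fun n => muP_per p n
  -- the Chinese remainder theorem
  have hcrt := sum_crt2 M (p ^ 2) hM0 (pow_pos hp.pos 2) hcop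
    (fun a c => (∑ j ∈ range N, ff P (a + j) * muP p (c + j) - N * (V' * mp)) ^ (2 * (r + 1)))
    (by
      intro c a
      simp only
      congr 2
      refine Finset.sum_congr rfl fun j _ => ?_
      rw [add_right_comm, hper])
    (by
      intro a c
      simp only
      congr 2
      refine Finset.sum_congr rfl fun j _ => ?_
      rw [add_right_comm, hmuper])
  rw [hcrt]
  -- notation
  set St : ℕ → ℝ := fun a => ∑ j ∈ range N, ff P (a + j) - N * V' with hSt
  set Δ : ℕ → ℕ → ℝ := fun a c => ∑ j ∈ range N, ff P (a + j) * (muP p (c + j) - mp) with hΔ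
  set τ : ℕ → ℝ := fun c => (cnt p c N : ℝ) + N / p with hτ
  have hτ0 : ∀ c, 0 < τ c := fun c => by
    simp only [hτ]
    have : 0 < (N : ℝ) / p := by positivity
    positivity
  have hS : ∀ a c, ∑ j ∈ range N, ff P (a + j) * muP p (c + j) - N * (V' * mp) =
      mp * St a + Δ a c := by
    intro a c
    simp only [hSt, hΔ, mul_sub, Finset.sum_sub_distrib, ← Finset.sum_mul]
    ring
  -- the sum of Δ vanishes
  have hsum_mu : ∀ j, ∑ c ∈ range (p ^ 2), muP p (c + j) = (p : ℝ) ^ 2 * mp := by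
    intro j
    have h1 := sum_dvd p p j hp.pos
    have h2 := sum_dvd (p ^ 2) 1 j (pow_pos hp.pos 2)
    rw [← pow_two] at h1
    rw [one_mul] at h2
    have h3 : ∑ c ∈ range (p ^ 2), muP p (c + j) = ∑ c ∈ range (p ^ 2), (1 : ℝ) -
        2 * ∑ c ∈ range (p ^ 2), (if p ∣ c + j then (1 : ℝ) else 0) +
        ∑ c ∈ range (p ^ 2), (if p ^ 2 ∣ c + j then (1 : ℝ) else 0) := by
      rw [Finset.mul_sum, ← Finset.sum_sub_distrib, ← Finset.sum_add_distrib]
      exact Finset.sum_congr rfl fun c _ => muP_eq p (c + j) hp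
    rw [h3, h1, h2, Finset.sum_const, card_range, nsmul_eq_mul, hmp]
    push_cast
    field_simp
    ring
  have hΔ0 : ∀ a, ∑ c ∈ range (p ^ 2), Δ a c = 0 := by
    intro a
    simp only [hΔ]
    rw [Finset.sum_comm]
    refine Finset.sum_eq_zero fun j _ => ?_
    rw [← Finset.mul_sum, Finset.sum_sub_distrib, hsum_mu, Finset.sum_const, card_range,
      nsmul_eq_mul]
    push_cast
    ring
  -- the moments of Δ
  have hΔm : ∀ c, ∑ a ∈ range M, Δ a c ^ (2 * (r + 1)) ≤ C1 (r + 1) * W * τ c ^ (r + 1) :=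
    fun c => delta_moment hP hp hpP hG ih N hN c
  have hStm : ∑ a ∈ range M, St a ^ (2 * (r + 1)) ≤ W * (N : ℝ) ^ (r + 1) := ih N
  have hK : 2 * (r + 1) = 2 * r + 2 := by ring
  rw [hK] at hΔm hStm
  -- sums over c
  have hcnt_sum : ∑ c ∈ range (p ^ 2), (cnt p c N : ℝ) = N * p := by
    have h1 : ∀ c, (cnt p c N : ℝ) = ∑ j ∈ range N, (if p ∣ c + j then (1 : ℝ) else 0) := by
      intro c
      rw [cnt, Finset.card_filter]
      push_cast
      rfl
    simp only [h1]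
    rw [Finset.sum_comm]
    have h2 : ∀ j ∈ range N, ∑ c ∈ range (p ^ 2), (if p ∣ c + j then (1 : ℝ) else 0) = p := by
      intro j _
      rw [pow_two]
      exact sum_dvd p p j hp.pos
    rw [Finset.sum_congr rfl h2, Finset.sum_const, card_range, nsmul_eq_mul]
  have hτ_sum : ∑ c ∈ range (p ^ 2), τ c = 2 * N * p := by
    simp only [hτ]
    rw [Finset.sum_add_distrib, hcnt_sum, Finset.sum_const, card_range, nsmul_eq_mul]
    push_cast
    field_simp
    ring
  have hτN : ∀ c, τ c ≤ 2 * N := by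
    intro c
    simp only [hτ]
    have h1 : (cnt p c N : ℝ) ≤ N := by
      have : cnt p c N ≤ N := by
        rw [cnt]
        exact (Finset.card_filter_le _ _).trans (card_range N).le
      exact_mod_cast this
    have h2 : (N : ℝ) / p ≤ N := div_le_self (by positivity) hp1.le
    linarith
  have hτm_sum : ∑ c ∈ range (p ^ 2), τ c ^ (r + 1) ≤ 2 ^ (r + 1) * (N : ℝ) ^ (r + 1) * p := by
    calc ∑ c ∈ range (p ^ 2), τ c ^ (r + 1) ≤ ∑ c ∈ range (p ^ 2), (2 * (N : ℝ)) ^ r * τ c := by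
          refine Finset.sum_le_sum fun c _ => ?_
          rw [pow_succ]
          exact mul_le_mul_of_nonneg_right (pow_le_pow_left₀ (hτ0 c).le (hτN c) r) (hτ0 c).le
      _ = 2 ^ (r + 1) * (N : ℝ) ^ (r + 1) * p := by
          rw [← Finset.mul_sum, hτ_sum, mul_pow]
          ring
  -- pointwise inequality
  have hpt : ∀ a, ∑ c ∈ range (p ^ 2), (mp * St a + Δ a c) ^ (2 * r + 2) ≤
      (p : ℝ) ^ 2 * St a ^ (2 * r + 2) + 2 ^ (2 * r + 2) * ∑ c ∈ range (p ^ 2),
        (τ c / N * St a ^ (2 * r + 2) + Δ a c ^ (2 * r + 2) / (τ c / N) ^ r +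
          Δ a c ^ (2 * r + 2)) := by
    intro a
    have hev : 0 ≤ St a ^ (2 * r + 2) := by rw [← hK, pow_mul]; positivity
    have hev2 : 0 ≤ St a ^ (2 * r) := by rw [pow_mul]; positivity
    calc ∑ c ∈ range (p ^ 2), (mp * St a + Δ a c) ^ (2 * r + 2)
        ≤ ∑ c ∈ range (p ^ 2), ((mp * St a) ^ (2 * r + 2) +
          (2 * r + 2) * (mp * St a) ^ (2 * r + 1) * Δ a c +
          2 ^ (2 * r + 2) * ((mp * St a) ^ (2 * r) * Δ a c ^ 2 + Δ a c ^ (2 * r + 2))) :=
          Finset.sum_le_sum fun c _ => pow_ineq r _ _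
      _ = (p : ℝ) ^ 2 * (mp * St a) ^ (2 * r + 2) + 2 ^ (2 * r + 2) * ∑ c ∈ range (p ^ 2),
          ((mp * St a) ^ (2 * r) * Δ a c ^ 2 + Δ a c ^ (2 * r + 2)) := by
          rw [Finset.sum_add_distrib, Finset.sum_add_distrib, Finset.sum_const, card_range,
            nsmul_eq_mul, ← Finset.mul_sum, ← Finset.mul_sum, hΔ0 a]
          push_cast
          ring
      _ ≤ (p : ℝ) ^ 2 * St a ^ (2 * r + 2) + 2 ^ (2 * r + 2) * ∑ c ∈ range (p ^ 2),
        (τ c / N * St a ^ (2 * r + 2) + Δ a c ^ (2 * r + 2) / (τ c / N) ^ r +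
          Δ a c ^ (2 * r + 2)) := by
          have h1 : (mp * St a) ^ (2 * r + 2) ≤ St a ^ (2 * r + 2) := by
            rw [mul_pow]
            exact mul_le_of_le_one_left hev (pow_le_one₀ hmp0 hmp1)
          have h2 : ∀ c, (mp * St a) ^ (2 * r) * Δ a c ^ 2 ≤
              τ c / N * St a ^ (2 * r + 2) + Δ a c ^ (2 * r + 2) / (τ c / N) ^ r := by
            intro c
            have h3 : (mp * St a) ^ (2 * r) ≤ St a ^ (2 * r) := by
              rw [mul_pow]
              exact mul_le_of_le_one_left hev2 (pow_le_one₀ hmp0 hmp1)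
            exact (mul_le_mul_of_nonneg_right h3 (sq_nonneg _)).trans
              (s_ineq r _ _ _ (div_pos (hτ0 c) hN0))
          refine add_le_add (mul_le_mul_of_nonneg_left h1 (by positivity)) ?_
          refine mul_le_mul_of_nonneg_left ?_ (by positivity)
          exact Finset.sum_le_sum fun c _ => add_le_add_left (h2 c) _
  -- the bound for the sum over `a` for fixed `c`
  have hc : ∀ c, ∑ a ∈ range M, (τ c / N * St a ^ (2 * r + 2) +
      Δ a c ^ (2 * r + 2) / (τ c / N) ^ r + Δ a c ^ (2 * r + 2)) ≤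
      (1 + C1 (r + 1)) * W * (N : ℝ) ^ r * τ c + C1 (r + 1) * W * τ c ^ (r + 1) := by
    intro c
    have hs : 0 < τ c / N := div_pos (hτ0 c) hN0
    rw [Finset.sum_add_distrib, Finset.sum_add_distrib, ← Finset.mul_sum, ← Finset.sum_div]
    refine add_le_add ?_ (hΔm c)
    have h1 : τ c / N * ∑ a ∈ range M, St a ^ (2 * r + 2) ≤ W * (N : ℝ) ^ r * τ c := by
      calc τ c / N * ∑ a ∈ range M, St a ^ (2 * r + 2) ≤ τ c / N * (W * (N : ℝ) ^ (r + 1)) :=
            mul_le_mul_of_nonneg_left hStm hs.le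
        _ = W * (N : ℝ) ^ r * τ c := by
            rw [pow_succ]
            field_simp
    have h2 : (∑ a ∈ range M, Δ a c ^ (2 * r + 2)) / (τ c / N) ^ r ≤
        C1 (r + 1) * W * (N : ℝ) ^ r * τ c := by
      rw [div_le_iff₀ (pow_pos hs r)]
      refine (hΔm c).trans (le_of_eq ?_)
      rw [div_pow, pow_succ]
      field_simp
    calc _ ≤ W * (N : ℝ) ^ r * τ c + C1 (r + 1) * W * (N : ℝ) ^ r * τ c := add_le_add h1 h2
      _ = _ := by ring
  calc ∑ a ∈ range M, ∑ c ∈ range (p ^ 2),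
        (∑ j ∈ range N, ff P (a + j) * muP p (c + j) - N * (V' * mp)) ^ (2 * (r + 1))
      = ∑ a ∈ range M, ∑ c ∈ range (p ^ 2), (mp * St a + Δ a c) ^ (2 * r + 2) := by
        refine Finset.sum_congr rfl fun a _ => Finset.sum_congr rfl fun c _ => ?_
        rw [hS, hK]
    _ ≤ ∑ a ∈ range M, ((p : ℝ) ^ 2 * St a ^ (2 * r + 2) + 2 ^ (2 * r + 2) *
          ∑ c ∈ range (p ^ 2), (τ c / N * St a ^ (2 * r + 2) +
            Δ a c ^ (2 * r + 2) / (τ c / N) ^ r + Δ a c ^ (2 * r + 2))) :=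
        Finset.sum_le_sum fun a _ => hpt a
    _ = (p : ℝ) ^ 2 * ∑ a ∈ range M, St a ^ (2 * r + 2) + 2 ^ (2 * r + 2) *
          ∑ c ∈ range (p ^ 2), ∑ a ∈ range M, (τ c / N * St a ^ (2 * r + 2) +
            Δ a c ^ (2 * r + 2) / (τ c / N) ^ r + Δ a c ^ (2 * r + 2)) := by
        rw [Finset.sum_add_distrib, ← Finset.mul_sum, ← Finset.mul_sum, Finset.sum_comm]
    _ ≤ (p : ℝ) ^ 2 * (W * (N : ℝ) ^ (r + 1)) + 2 ^ (2 * r + 2) *
          ∑ c ∈ range (p ^ 2), ((1 + C1 (r + 1)) * W * (N : ℝ) ^ r * τ c +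
            C1 (r + 1) * W * τ c ^ (r + 1)) := by
        refine add_le_add (mul_le_mul_of_nonneg_left hStm (by positivity)) ?_
        exact mul_le_mul_of_nonneg_left (Finset.sum_le_sum fun c _ => hc c) (by positivity)
    _ = (p : ℝ) ^ 2 * (W * (N : ℝ) ^ (r + 1)) + 2 ^ (2 * r + 2) *
          ((1 + C1 (r + 1)) * W * (N : ℝ) ^ r * (2 * N * p) +
            C1 (r + 1) * W * ∑ c ∈ range (p ^ 2), τ c ^ (r + 1)) := by
        rw [Finset.sum_add_distrib, ← Finset.mul_sum, ← Finset.mul_sum, hτ_sum]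
    _ ≤ (p : ℝ) ^ 2 * (W * (N : ℝ) ^ (r + 1)) + 2 ^ (2 * r + 2) *
          ((1 + C1 (r + 1)) * W * (N : ℝ) ^ r * (2 * N * p) +
            C1 (r + 1) * W * (2 ^ (r + 1) * (N : ℝ) ^ (r + 1) * p)) := by
        have h1 := C1_nonneg (r + 1)
        have h2 : C1 (r + 1) * W * ∑ c ∈ range (p ^ 2), τ c ^ (r + 1) ≤
            C1 (r + 1) * W * (2 ^ (r + 1) * (N : ℝ) ^ (r + 1) * p) :=
          mul_le_mul_of_nonneg_left hτm_sum (by positivity)
        refine add_le_add_right (mul_le_mul_of_nonneg_left ?_ (by positivity)) _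
        exact add_le_add_right h2 _
    _ = ((∏ q ∈ P, (q : ℝ) ^ 2) * p ^ 2) * (G * (1 + Cm (r + 1) / p)) * (N : ℝ) ^ (r + 1) := by
        rw [hW, Cm, hK]
        field_simp
        ring

end step

/-- **MOM** -/
theorem t_MOM : S_MOM := by
  intro m
  refine ⟨Cm m, Cm_nonneg m, ?_⟩
  intro P
  induction P using Finset.induction_on with
  | empty =>
    intro _ N
    rcases Nat.eq_zero_or_pos m with h | h
    · subst h
      simp
    · have h1 : (∑ n ∈ range (∏ p ∈ (∅ : Finset ℕ), p ^ 2), (∑ j ∈ range N, ∏ p ∈ (∅ : Finset ℕ),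
          muP p (n + j) - N * V ∅) ^ (2 * m)) = 0 := by
        refine Finset.sum_eq_zero fun n _ => ?_
        have : (∑ j ∈ range N, ∏ p ∈ (∅ : Finset ℕ), muP p (n + j) - N * V ∅ : ℝ) = 0 := by
          simp [V]
        rw [this, zero_pow (by omega)]
      rw [h1]
      simp only [Finset.prod_empty, one_mul]
      positivity
  | insert p P hpP ih =>
    intro hP' N
    have hP : ∀ q ∈ P, q.Prime := fun q hq => hP' q (mem_insert_of_mem hq)
    have hp : p.Prime := hP' p (mem_insert_self p P)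
    have ih' := ih hP
    have hp0 : (0 : ℝ) < p := by exact_mod_cast hp.pos
    have hCm := Cm_nonneg m
    set G : ℝ := ∏ q ∈ P, (1 + Cm m / q) with hG'
    have hG : 1 ≤ G := by
      calc (1 : ℝ) = ∏ q ∈ P, (1 : ℝ) := by simp
        _ ≤ G := Finset.prod_le_prod (fun _ _ => zero_le_one) fun q _ => by
            have : (0 : ℝ) ≤ Cm m / q := by positivity
            linarith
    rw [Finset.prod_insert hpP, Finset.prod_insert hpP, Finset.prod_insert hpP]
    have hV : V (insert p P) = V P * (1 - 1 / (p : ℝ)) ^ 2 := by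
      rw [V, Finset.prod_insert hpP, mul_comm]; rfl
    have hprod : ∀ n, ∏ q ∈ insert p P, muP q n = ff P n * muP p n := by
      intro n
      rw [Finset.prod_insert hpP, mul_comm]; rfl
    simp only [hprod, hV]
    rcases Nat.eq_zero_or_pos m with h | h
    · subst h
      simp only [mul_zero, pow_zero, mul_one, Finset.sum_const, card_range, nsmul_eq_mul]
      push_cast
      have h1 : 1 ≤ (1 + Cm 0 / (p : ℝ)) * G := by
        have : (0 : ℝ) ≤ Cm 0 / p := by positivity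
        nlinarith
      refine le_mul_of_one_le_right ?_ h1
      exact mul_nonneg (by positivity) (Finset.prod_nonneg fun q _ => sq_nonneg _)
    · rcases Nat.eq_zero_or_pos N with hN | hN
      · subst hN
        simp only [Finset.range_zero, Finset.sum_empty, Nat.cast_zero, zero_mul, sub_zero,
          zero_pow (show 2 * m ≠ 0 by omega), Finset.sum_const_zero, zero_pow (show m ≠ 0 by omega),
          mul_zero, le_refl]
      · have h2 := step_moment hP hp hpP hG (fun N => ih' N) h N hN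
        rw [mul_comm (p ^ 2)]
        refine h2.trans (le_of_eq ?_)
        ring

end Pool.Agent.H23.TM
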