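import Pool.Agent.H19.TM.Stm3
import Pool.Graph.R_seed8.H510R2.Div
import Pool.Graph.R_seed8.Helper256.KM.Mertens

/-!
# Project TM3: modules G4, G5, E3
-/

set_option autoImplicit false

namespace Pool.Agent.H23.TM

open Finset Pool.Agent.Y862.GM Pool.Agent.H19.TM

theorem V_mem (P : Finset ℕ) (hP : ∀ p ∈ P, p.Prime) : 0 ≤ V P ∧ V P ≤ 1 := by
  unfold V
  refine ⟨prod_nonneg fun p _ => sq_nonneg _, prod_le_one (fun p _ => sq_nonneg _) fun p hp => ?_⟩
  have h2 : (1 : ℝ) < p := by exact_mod_cast (hP p hp).one_lt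
  have h3 : (0 : ℝ) ≤ 1 / p := by positivity
  have h4 : 1 / (p : ℝ) ≤ 1 := by rw [div_le_one (by linarith)]; exact h2.le
  exact pow_le_one₀ (by linarith) (by linarith)

/-- the divisor bound for `tau4` -/
theorem tau4_le : ∃ C : ℝ, 0 < C ∧ ∀ n : ℕ, 1 ≤ n → (tau4 n : ℝ) ≤ C * (n : ℝ) ^ (1 / 2 : ℝ) := by
  obtain ⟨C, hC, hd⟩ := Pool.Agent.H510R2.divisor_bound (1 / 4) (by norm_num)
  refine ⟨C ^ 3, by positivity, fun n hn => ?_⟩
  have hn' : (0 : ℝ) < n := by exact_mod_cast hn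
  have h1 : (tau4 n : ℝ) ≤ ∑ d ∈ n.divisors, C ^ 2 * (n : ℝ) ^ (1 / 4 : ℝ) := by
    unfold tau4
    push_cast
    refine sum_le_sum fun d hdn => ?_
    have hdd := Nat.dvd_of_mem_divisors hdn
    have hd1 : 1 ≤ d := Nat.pos_of_dvd_of_pos hdd hn
    have hd2 : 1 ≤ n / d := Nat.div_pos (Nat.le_of_dvd hn hdd) hd1
    have e1 := hd d hd1
    have e2 := hd (n / d) hd2
    have e3 : (d : ℝ) ^ (1 / 4 : ℝ) * ((n / d : ℕ) : ℝ) ^ (1 / 4 : ℝ) = (n : ℝ) ^ (1 / 4 : ℝ) := by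
      rw [← Real.mul_rpow (by positivity) (by positivity)]
      congr 1
      exact_mod_cast Nat.mul_div_cancel' hdd
    calc (d.divisors.card : ℝ) * ((n / d).divisors.card : ℝ) ≤
          (C * (d : ℝ) ^ (1 / 4 : ℝ)) * (C * ((n / d : ℕ) : ℝ) ^ (1 / 4 : ℝ)) :=
          mul_le_mul e1 e2 (by positivity) (by positivity)
      _ = C ^ 2 * ((d : ℝ) ^ (1 / 4 : ℝ) * ((n / d : ℕ) : ℝ) ^ (1 / 4 : ℝ)) := by ring
      _ = _ := by rw [e3]
  rw [sum_const, nsmul_eq_mul] at h1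
  refine h1.trans ?_
  have e4 := hd n hn
  have e5 : (n : ℝ) ^ (1 / 2 : ℝ) = (n : ℝ) ^ (1 / 4 : ℝ) * (n : ℝ) ^ (1 / 4 : ℝ) := by
    rw [← Real.rpow_add hn']; norm_num
  calc (n.divisors.card : ℝ) * (C ^ 2 * (n : ℝ) ^ (1 / 4 : ℝ)) ≤
        (C * (n : ℝ) ^ (1 / 4 : ℝ)) * (C ^ 2 * (n : ℝ) ^ (1 / 4 : ℝ)) :=
        mul_le_mul_of_nonneg_right e4 (by positivity)
    _ = C ^ 3 * (n : ℝ) ^ (1 / 2 : ℝ) := by rw [e5]; ring

theorem Gd_succ (P : Finset ℕ) (M : ℕ) : Gd P (M + 1) - Gd P M =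
    if (M + 1).primeFactors ⊆ P then V P ^ 2 * ((tau4 (M + 1) : ℝ) / (M + 1 : ℕ)) else 0 := by
  unfold Gd
  have hI : Icc 1 (M + 1) = insert (M + 1) (Icc 1 M) := by
    ext x
    simp only [mem_Icc, mem_insert]
    omega
  rw [hI, filter_insert]
  split_ifs with h
  · rw [sum_insert (by simp), mul_add]
    ring
  · rw [sub_self]

theorem t_G4 : S_G4 := by
  intro ε hε
  obtain ⟨C, hC, hb⟩ := tau4_le
  obtain ⟨M0, hM0⟩ := exists_nat_ge ((C / ε) ^ 2)
  refine ⟨M0, fun M hM P hP => ?_⟩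
  rw [Gd_succ]
  split_ifs with h
  · obtain ⟨v0, v1⟩ := V_mem P hP
    have hn : (0 : ℝ) < ((M + 1 : ℕ) : ℝ) := by positivity
    have h1 := hb (M + 1) (by omega)
    have h2 : (tau4 (M + 1) : ℝ) / (M + 1 : ℕ) ≤ ε := by
      rw [div_le_iff₀ hn]
      refine h1.trans ?_
      rw [← Real.sqrt_eq_rpow]
      have h3 : C / ε ≤ √((M + 1 : ℕ) : ℝ) := by
        apply Real.le_sqrt_of_sq_le
        refine hM0.trans ?_
        exact_mod_cast (by omega : M0 ≤ M + 1)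
      have h4 : C ≤ ε * √((M + 1 : ℕ) : ℝ) := by
        rw [div_le_iff₀ hε] at h3
        linarith
      calc C * √((M + 1 : ℕ) : ℝ) ≤ (ε * √((M + 1 : ℕ) : ℝ)) * √((M + 1 : ℕ) : ℝ) :=
            mul_le_mul_of_nonneg_right h4 (Real.sqrt_nonneg _)
        _ = ε * ((M + 1 : ℕ) : ℝ) := by rw [mul_assoc, Real.mul_self_sqrt hn.le]
    have h5 : 0 ≤ (tau4 (M + 1) : ℝ) / (M + 1 : ℕ) := by positivity
    rw [abs_of_nonneg (by positivity)]
    calc V P ^ 2 * ((tau4 (M + 1) : ℝ) / (M + 1 : ℕ)) ≤ 1 * ((tau4 (M + 1) : ℝ) / (M + 1 : ℕ)) :=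
          mul_le_mul_of_nonneg_right (pow_le_one₀ v0 v1) h5
      _ ≤ ε := by rw [one_mul]; exact h2
  · rw [abs_zero]; exact hε.le

theorem pr_eq (z : ℕ) : pr z = (Icc 1 z).filter Nat.Prime := by
  unfold pr
  ext p
  rw [mem_filter, mem_filter, mem_range, mem_Icc]
  constructor
  · rintro ⟨h1, h2⟩
    exact ⟨⟨h2.one_lt.le, by omega⟩, h2⟩
  · rintro ⟨⟨h1, h2⟩, h3⟩
    exact ⟨by omega, h3⟩

theorem pr_prime (z : ℕ) : ∀ p ∈ pr z, p.Prime := fun p hp => by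
  unfold pr at hp
  exact (mem_filter.1 hp).2

theorem half_le_log {z : ℕ} (hz : 2 ≤ z) : (1 : ℝ) / 2 ≤ Real.log z := by
  have h1 := Real.log_two_gt_d9
  have h2 : Real.log 2 ≤ Real.log z := Real.log_le_log (by norm_num) (by exact_mod_cast hz)
  linarith

theorem t_G5 (hG2 : S_G2) : S_G5 := by
  obtain ⟨C, hC⟩ := Pool.Agent.Helper256.KM.mertens_log
  refine ⟨3 * (8 * (1 + 2 * |C|)), by positivity, fun z N hz hN => ?_⟩
  have hz' := half_le_log hz
  have h1 := hG2.2 (pr z) (pr_prime z) N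
  have h2 := (hG2.1 (pr z) (pr_prime z) N).2
  have hN' : (1 : ℝ) ≤ N := by exact_mod_cast hN
  have h3 : ∑ p ∈ pr z, 4 * Real.log p / (p - 1) ≤ 8 * ∑ p ∈ pr z, Real.log p / p := by
    rw [mul_sum]
    refine sum_le_sum fun p hp => ?_
    have hp2 : (2 : ℝ) ≤ p := by exact_mod_cast (pr_prime z p hp).two_le
    have hl : 0 ≤ Real.log p := Real.log_nonneg (by linarith)
    rw [mul_div_assoc', div_le_div_iff₀ (by linarith) (by linarith)]
    nlinarith
  have h4 : ∑ p ∈ pr z, Real.log p / p ≤ Real.log z + |C| := by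
    rw [pr_eq]
    have := (abs_le.1 (hC z (by omega))).2
    have := le_abs_self C
    linarith
  have h5 : Real.log z + |C| ≤ (1 + 2 * |C|) * Real.log z := by
    nlinarith [abs_nonneg C]
  have h6 : 0 ≤ Real.log N := Real.log_nonneg hN'
  have h7 : 1 + Real.log N ≤ 3 * Real.log (N + 1) := by
    have e1 := Real.log_two_gt_d9
    have e2 : Real.log 2 ≤ Real.log ((N : ℝ) + 1) := Real.log_le_log (by norm_num) (by linarith)
    have e3 : Real.log N ≤ Real.log ((N : ℝ) + 1) := Real.log_le_log (by linarith) (by linarith)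
    linarith
  rw [le_div_iff₀ (by linarith)]
  calc (1 - Gd (pr z) N) * (1 + Real.log N) ≤ (1 - Gd (pr z) N) * (3 * Real.log (N + 1)) :=
        mul_le_mul_of_nonneg_left h7 (by linarith)
    _ = 3 * ((1 - Gd (pr z) N) * Real.log (N + 1)) := by ring
    _ ≤ 3 * (8 * (1 + 2 * |C|)) * Real.log z := by nlinarith

theorem t_E3 (hV : S_VAR) (hS : S_SIG) (hG2 : S_G2) (hSM : S_SMALL) (hG5 : S_G5) : S_E3 := by
  obtain ⟨C1, hC1, hv⟩ := hV
  obtain ⟨C2, hC2, hs⟩ := hSM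
  obtain ⟨C3, hC3, hg⟩ := hG5
  have key : ∀ P : Finset ℕ, (∀ q ∈ P, q.Prime) → ∀ N : ℕ, ∀ c : ℝ, 0 ≤ c → Wv P N ≤ c * N →
      0 ≤ Wv P N / (sig P * N) ∧ Wv P N / (sig P * N) ≤ 2 * c := by
    intro P hP N c hc hw
    have s0 := (hS.1 P hP).1
    rcases Nat.eq_zero_or_pos N with h | h
    · subst h
      rw [Nat.cast_zero, mul_zero, div_zero]
      exact ⟨le_rfl, by positivity⟩
    · have hN : (0 : ℝ) < N := by exact_mod_cast h
      refine ⟨div_nonneg (hv P hP N).1 (by positivity), ?_⟩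
      rw [div_le_iff₀ (by positivity)]
      refine hw.trans ?_
      have : (1 : ℝ) ≤ 2 * sig P := by linarith
      calc c * N = c * N * 1 := (mul_one _).symm
        _ ≤ c * N * (2 * sig P) := mul_le_mul_of_nonneg_left this (by positivity)
        _ = _ := by ring
  refine ⟨max (2 + 2 * C1) (2 * C2 + C3), le_max_of_le_left (by linarith), ?_, ?_⟩
  · intro P hP N
    obtain ⟨k1, k2⟩ := key P hP N C1 (by linarith) (hv P hP N).2
    obtain ⟨g1, g2⟩ := hG2.1 P hP N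
    refine le_trans ?_ (le_max_left _ _)
    unfold Ed Fd
    rw [abs_le]
    constructor <;> linarith
  · intro z N hz hN
    have hz' := half_le_log hz
    have hN' : (1 : ℝ) ≤ N := by exact_mod_cast hN
    have hl : 0 ≤ Real.log N := Real.log_nonneg hN'
    have hq : 0 ≤ Real.log z / (1 + Real.log N) := div_nonneg (by linarith) (by linarith)
    have hw : Wv (pr z) N ≤ (C2 * (Real.log z / (1 + Real.log N))) * N := by
      refine (hs z N hz hN).trans (le_of_eq ?_)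
      ring
    obtain ⟨k1, k2⟩ := key (pr z) (pr_prime z) N _ (by positivity) hw
    obtain ⟨g1, g2⟩ := hG2.1 (pr z) (pr_prime z) N
    have g3 := hg z N hz hN
    rw [mul_div_assoc] at g3 ⊢
    refine le_trans ?_ (mul_le_mul_of_nonneg_right (le_max_right (2 + 2 * C1) (2 * C2 + C3)) hq)
    have h1 : 0 ≤ C3 * (Real.log z / (1 + Real.log N)) := by positivity
    have h2 : 0 ≤ C2 * (Real.log z / (1 + Real.log N)) := by positivity
    unfold Ed Fd
    rw [abs_le]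
    constructor <;> nlinarith

end Pool.Agent.H23.TM
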