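import Pool.Agent.H19.TM.Stm
import Pool.Graph.R_seed8.Y672.GM.Equi

/-!
# Moments over a full period: elementary inequalities and sums of periodic functions
-/

set_option autoImplicit false

namespace Pool.Agent.H23.TM

open Finset Pool.Agent.Y862.GM Pool.Agent.H19.TM Pool.Agent.Y672.GM

/-! ### Elementary inequalities -/

lemma term_le (r i : ℕ) (hi : i ≤ 2 * r) (u v : ℝ) :
    v ^ (i + 2) * u ^ (2 * r - i) ≤ u ^ (2 * r) * v ^ 2 + v ^ (2 * r + 2) := by
  have h0 : v ^ (i + 2) * u ^ (2 * r - i) ≤ |v| ^ (i + 2) * |u| ^ (2 * r - i) := by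
    rw [← abs_pow, ← abs_pow, ← abs_mul]
    exact le_abs_self _
  have hu : u ^ (2 * r) = |u| ^ (2 * r) := by rw [pow_mul, pow_mul, sq_abs]
  have hv : v ^ (2 * r + 2) = |v| ^ (2 * r + 2) := by
    rw [show 2 * r + 2 = 2 * (r + 1) by ring, pow_mul, pow_mul, sq_abs]
  have hv2 : v ^ 2 = |v| ^ 2 := (sq_abs v).symm
  rw [hu, hv, hv2]
  refine h0.trans ?_
  have ha := abs_nonneg u
  have hb := abs_nonneg v
  rcases le_total |v| |u| with h | h
  · have h1 : |v| ^ i ≤ |u| ^ i := pow_le_pow_left₀ hb h i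
    have h2 : |v| ^ (i + 2) * |u| ^ (2 * r - i) ≤ |u| ^ (2 * r) * |v| ^ 2 := by
      calc |v| ^ (i + 2) * |u| ^ (2 * r - i) = |v| ^ i * (|v| ^ 2 * |u| ^ (2 * r - i)) := by ring
        _ ≤ |u| ^ i * (|v| ^ 2 * |u| ^ (2 * r - i)) :=
            mul_le_mul_of_nonneg_right h1 (by positivity)
        _ = |u| ^ (i + (2 * r - i)) * |v| ^ 2 := by rw [pow_add]; ring
        _ = |u| ^ (2 * r) * |v| ^ 2 := by rw [Nat.add_sub_cancel' hi]
    exact h2.trans (le_add_of_nonneg_right (by positivity))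
  · have h1 : |u| ^ (2 * r - i) ≤ |v| ^ (2 * r - i) := pow_le_pow_left₀ ha h _
    have h2 : |v| ^ (i + 2) * |u| ^ (2 * r - i) ≤ |v| ^ (2 * r + 2) := by
      calc |v| ^ (i + 2) * |u| ^ (2 * r - i) ≤ |v| ^ (i + 2) * |v| ^ (2 * r - i) :=
            mul_le_mul_of_nonneg_left h1 (by positivity)
        _ = |v| ^ (2 * r + 2) := by
            rw [← pow_add]
            congr 1
            omega
    exact h2.trans (le_add_of_nonneg_left (by positivity))

/-- The binomial inequality. -/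
lemma pow_ineq (r : ℕ) (u v : ℝ) : (u + v) ^ (2 * r + 2) ≤
    u ^ (2 * r + 2) + (2 * r + 2) * u ^ (2 * r + 1) * v +
      2 ^ (2 * r + 2) * (u ^ (2 * r) * v ^ 2 + v ^ (2 * r + 2)) := by
  rw [add_comm u v, add_pow, Finset.sum_range_succ', Finset.sum_range_succ']
  have hnn : 0 ≤ u ^ (2 * r) * v ^ 2 + v ^ (2 * r + 2) := by
    have h1 : 0 ≤ u ^ (2 * r) := by rw [pow_mul]; positivity
    have h2 : 0 ≤ v ^ (2 * r + 2) := by
      rw [show 2 * r + 2 = 2 * (r + 1) by ring, pow_mul]; positivity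
    positivity
  have hS : ∑ k ∈ range (2 * r + 1), v ^ (k + 1 + 1) * u ^ (2 * r + 2 - (k + 1 + 1)) *
      ((2 * r + 2).choose (k + 1 + 1) : ℝ) ≤
      2 ^ (2 * r + 2) * (u ^ (2 * r) * v ^ 2 + v ^ (2 * r + 2)) := by
    have h1 : ∑ k ∈ range (2 * r + 1), v ^ (k + 1 + 1) * u ^ (2 * r + 2 - (k + 1 + 1)) *
        ((2 * r + 2).choose (k + 1 + 1) : ℝ) ≤
        ∑ k ∈ range (2 * r + 1), (u ^ (2 * r) * v ^ 2 + v ^ (2 * r + 2)) *
          ((2 * r + 2).choose (k + 1 + 1) : ℝ) := by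
      refine Finset.sum_le_sum fun k hk => ?_
      have hk' := mem_range.mp hk
      have h2 := term_le r k (by omega) u v
      have h3 : 2 * r + 2 - (k + 1 + 1) = 2 * r - k := by omega
      rw [h3]
      exact mul_le_mul_of_nonneg_right h2 (by positivity)
    refine h1.trans ?_
    rw [← Finset.mul_sum, mul_comm]
    refine mul_le_mul_of_nonneg_right ?_ hnn
    have h4 : (∑ k ∈ range (2 * r + 2 + 1), ((2 * r + 2).choose k : ℝ)) = 2 ^ (2 * r + 2) := by
      exact_mod_cast Nat.sum_range_choose (2 * r + 2)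
    have h5 : (∑ k ∈ range (2 * r + 2 + 1), ((2 * r + 2).choose k : ℝ)) =
        ∑ k ∈ range (2 * r + 1), ((2 * r + 2).choose (k + 1 + 1) : ℝ) +
          ((2 * r + 2).choose (0 + 1) : ℝ) + ((2 * r + 2).choose 0 : ℝ) := by
      rw [Finset.sum_range_succ', Finset.sum_range_succ']
    have : (0 : ℝ) ≤ ((2 * r + 2).choose (0 + 1) : ℝ) + ((2 * r + 2).choose 0 : ℝ) := by positivity
    linarith
  have e1 : v ^ (0 + 1) * u ^ (2 * r + 2 - (0 + 1)) * ((2 * r + 2).choose (0 + 1) : ℝ) =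
      (2 * r + 2) * u ^ (2 * r + 1) * v := by
    rw [show 2 * r + 2 - (0 + 1) = 2 * r + 1 by omega, zero_add, Nat.choose_one_right]
    push_cast
    ring
  have e0 : v ^ 0 * u ^ (2 * r + 2 - 0) * ((2 * r + 2).choose 0 : ℝ) = u ^ (2 * r + 2) := by
    simp
  rw [e1, e0]
  linarith

lemma s_ineq (r : ℕ) (u v s : ℝ) (hs : 0 < s) :
    u ^ (2 * r) * v ^ 2 ≤ s * u ^ (2 * r + 2) + v ^ (2 * r + 2) / s ^ r := by
  have hu : 0 ≤ u ^ (2 * r) := by rw [pow_mul]; positivity
  have hv : 0 ≤ v ^ (2 * r + 2) := by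
    rw [show 2 * r + 2 = 2 * (r + 1) by ring, pow_mul]; positivity
  have hu2 : 0 ≤ u ^ (2 * r + 2) := by
    rw [show 2 * r + 2 = 2 * (r + 1) by ring, pow_mul]; positivity
  rcases le_or_gt (v ^ 2) (s * u ^ 2) with h | h
  · have h1 : u ^ (2 * r) * v ^ 2 ≤ s * u ^ (2 * r + 2) := by
      calc u ^ (2 * r) * v ^ 2 ≤ u ^ (2 * r) * (s * u ^ 2) := mul_le_mul_of_nonneg_left h hu
        _ = s * u ^ (2 * r + 2) := by ring
    exact h1.trans (le_add_of_nonneg_right (by positivity))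
  · have h1 : u ^ (2 * r) * v ^ 2 ≤ v ^ (2 * r + 2) / s ^ r := by
      rw [le_div_iff₀ (by positivity)]
      calc u ^ (2 * r) * v ^ 2 * s ^ r = (s * u ^ 2) ^ r * v ^ 2 := by
            rw [mul_pow, ← pow_mul]; ring
        _ ≤ (v ^ 2) ^ r * v ^ 2 :=
            mul_le_mul_of_nonneg_right (pow_le_pow_left₀ (by positivity) h.le r) (by positivity)
        _ = v ^ (2 * r + 2) := by rw [← pow_mul]; ring
    exact h1.trans (le_add_of_nonneg_left (by positivity))

lemma two_ineq (m : ℕ) (a b : ℝ) : (a + b) ^ (2 * m) ≤ 2 ^ (2 * m) * (a ^ (2 * m) + b ^ (2 * m)) := by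
  have h0 : ∀ x : ℝ, x ^ (2 * m) = |x| ^ (2 * m) := fun x => by rw [pow_mul, pow_mul, sq_abs]
  rw [h0 (a + b), h0 a, h0 b]
  have ha := abs_nonneg a
  have hb := abs_nonneg b
  have hab := abs_add_le a b
  rcases le_total |a| |b| with h | h
  · calc |a + b| ^ (2 * m) ≤ (2 * |b|) ^ (2 * m) :=
          pow_le_pow_left₀ (abs_nonneg _) (by linarith) _
      _ = 2 ^ (2 * m) * |b| ^ (2 * m) := mul_pow _ _ _
      _ ≤ _ := mul_le_mul_of_nonneg_left (le_add_of_nonneg_left (by positivity)) (by positivity)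
  · calc |a + b| ^ (2 * m) ≤ (2 * |a|) ^ (2 * m) :=
          pow_le_pow_left₀ (abs_nonneg _) (by linarith) _
      _ = 2 ^ (2 * m) * |a| ^ (2 * m) := mul_pow _ _ _
      _ ≤ _ := mul_le_mul_of_nonneg_left (le_add_of_nonneg_right (by positivity)) (by positivity)

lemma four_ineq (m : ℕ) (a b c d : ℝ) : (a + b + (c + d)) ^ (2 * m) ≤
    4 ^ (2 * m) * (a ^ (2 * m) + b ^ (2 * m) + c ^ (2 * m) + d ^ (2 * m)) := by
  have h1 := two_ineq m (a + b) (c + d)
  have h2 := two_ineq m a b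
  have h3 := two_ineq m c d
  have h4 : (4 : ℝ) ^ (2 * m) = 2 ^ (2 * m) * 2 ^ (2 * m) := by rw [← mul_pow]; norm_num
  calc (a + b + (c + d)) ^ (2 * m) ≤ _ := h1
    _ ≤ 2 ^ (2 * m) * (2 ^ (2 * m) * (a ^ (2 * m) + b ^ (2 * m)) +
          2 ^ (2 * m) * (c ^ (2 * m) + d ^ (2 * m))) := by gcongr
    _ = _ := by rw [h4]; ring

/-! ### Sums of periodic functions -/

/-- The Chinese remainder theorem in two variables. -/
theorem sum_crt2 (m₁ m₂ : ℕ) (h₁ : 0 < m₁) (h₂ : 0 < m₂) (hc : Nat.Coprime m₁ m₂)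
    (Φ : ℕ → ℕ → ℝ) (hΦ₁ : ∀ c, Function.Periodic (fun a => Φ a c) m₁)
    (hΦ₂ : ∀ a, Function.Periodic (fun c => Φ a c) m₂) :
    ∑ n ∈ range (m₁ * m₂), Φ n n = ∑ a ∈ range m₁, ∑ c ∈ range m₂, Φ a c := by
  rw [← Finset.sum_product']
  refine Finset.sum_bij' (fun n _ => (n % m₁, n % m₂))
    (fun p _ => (Nat.chineseRemainder hc p.1 p.2 : ℕ)) ?_ ?_ ?_ ?_ ?_
  · intro n _
    simp only [mem_product, mem_range]
    exact ⟨Nat.mod_lt _ h₁, Nat.mod_lt _ h₂⟩
  · intro p _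
    exact mem_range.mpr (Nat.chineseRemainder_lt_mul hc p.1 p.2 h₁.ne' h₂.ne')
  · intro n hn
    have h3 := Nat.chineseRemainder_modEq_unique hc
      (Nat.mod_modEq n m₁).symm (Nat.mod_modEq n m₂).symm
    have h4 := Nat.chineseRemainder_lt_mul hc (n % m₁) (n % m₂) h₁.ne' h₂.ne'
    exact (Nat.ModEq.eq_of_lt_of_lt h3 (mem_range.mp hn) h4).symm
  · intro p hp
    rw [mem_product, mem_range, mem_range] at hp
    have h3 := (Nat.chineseRemainder hc p.1 p.2).2
    refine Prod.ext ?_ ?_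
    · have h4 := h3.1
      change (Nat.chineseRemainder hc p.1 p.2 : ℕ) % m₁ = p.1
      rw [h4, Nat.mod_eq_of_lt hp.1]
    · have h4 := h3.2
      change (Nat.chineseRemainder hc p.1 p.2 : ℕ) % m₂ = p.2
      rw [h4, Nat.mod_eq_of_lt hp.2]
  · intro n _
    change Φ n n = Φ (n % m₁) (n % m₂)
    have h5 := (hΦ₁ (n % m₂)).map_mod_nat n
    have h6 := (hΦ₂ n).map_mod_nat n
    exact (h5.trans h6).symm

lemma sum_affine {M u : ℕ} (hM : 0 < M) (hu : Nat.Coprime u M) (Ψ : ℕ → ℝ)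
    (hΨ : Function.Periodic Ψ M) : ∑ n ∈ range M, Ψ (u * n) = ∑ n ∈ range M, Ψ n := by
  have hinj : Set.InjOn (fun n => (u * n) % M) (range M : Set ℕ) := by
    intro a ha b hb h
    have h2 : u * a ≡ u * b [MOD M] := h
    have h3 : a ≡ b [MOD M] := Nat.ModEq.cancel_left_of_coprime ((Nat.coprime_comm.mp hu)) h2
    exact Nat.ModEq.eq_of_lt_of_lt h3 (mem_range.mp (mem_coe.mp ha)) (mem_range.mp (mem_coe.mp hb))
  have himg : (range M).image (fun n => (u * n) % M) = range M := by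
    apply Finset.eq_of_subset_of_card_le
    · intro x hx
      obtain ⟨n, _, rfl⟩ := mem_image.mp hx
      exact mem_range.mpr (Nat.mod_lt _ hM)
    · rw [card_image_of_injOn hinj]
  conv_rhs => rw [← himg, sum_image hinj]
  exact sum_congr rfl fun n _ => (hΨ.map_mod_nat _).symm

lemma sum_dvd (d k j : ℕ) (hd : 0 < d) :
    ∑ c ∈ range (k * d), (if d ∣ c + j then (1 : ℝ) else 0) = k := by
  have hper : Function.Periodic (fun i => if d ∣ i then (1 : ℝ) else 0) d := by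
    intro n
    simp only [Nat.dvd_add_self_right]
  have h1 := sum_mul_add d (fun i => if d ∣ i then (1 : ℝ) else 0) hper k 0 j
  rw [add_zero, Finset.sum_range_zero, add_zero] at h1
  have h2 : ∑ i ∈ range d, (if d ∣ i then (1 : ℝ) else 0) = 1 := by
    rw [Finset.sum_eq_single 0]
    · simp
    · intro b hb hb0
      rw [if_neg]
      intro h
      exact absurd (Nat.le_of_dvd (Nat.pos_of_ne_zero hb0) h) (not_le.mpr (mem_range.mp hb))
    · intro h
      exact absurd (mem_range.mpr hd) h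
  rw [h2, mul_one] at h1
  rw [← h1]
  exact Finset.sum_congr rfl fun c _ => by rw [add_comm]

/-- The structure of the set of `j < N` with `d ∣ c + j`. -/
lemma ap_struct (d : ℕ) (hd : 0 < d) (c N : ℕ) : ∃ j0 : ℕ,
    (∀ h : ℕ → ℝ, ∑ j ∈ (range N).filter (fun j => d ∣ c + j), h j =
      ∑ i ∈ range ((range N).filter (fun j => d ∣ c + j)).card, h (j0 + d * i)) ∧
    |(((range N).filter (fun j => d ∣ c + j)).card : ℝ) - N / d| ≤ 1 := by
  set j0 := (d - c % d) % d with hj0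
  have hj0d : j0 < d := Nat.mod_lt _ hd
  have hcd : c % d < d := Nat.mod_lt _ hd
  have hdvd0 : d ∣ c + j0 := by
    rw [← Nat.modEq_zero_iff_dvd]
    have h1 : c + j0 ≡ c % d + (d - c % d) [MOD d] :=
      Nat.ModEq.add (Nat.mod_modEq c d).symm (Nat.mod_modEq _ _)
    rw [Nat.add_sub_cancel' hcd.le] at h1
    exact h1.trans (Nat.modEq_zero_iff_dvd.mpr (dvd_refl d))
  set N1 := (N + (d - 1 - j0)) / d with hN1
  have hset : (range N).filter (fun j => d ∣ c + j) = (range N1).image (fun i => j0 + d * i) := by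
    ext j
    simp only [mem_filter, mem_range, mem_image]
    constructor
    · rintro ⟨h1, h2⟩
      have h3 : j % d = j0 := by
        have h4 : c + j ≡ c + j0 [MOD d] :=
          ((Nat.modEq_zero_iff_dvd.mpr h2)).trans ((Nat.modEq_zero_iff_dvd.mpr hdvd0)).symm
        have h5 : j ≡ j0 [MOD d] := Nat.ModEq.add_left_cancel' c h4
        have h6 : j % d = j0 % d := h5
        rwa [Nat.mod_eq_of_lt hj0d] at h6
      have h7 : d * (j / d) + j % d = j := Nat.div_add_mod j d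
      refine ⟨j / d, ?_, by omega⟩
      rw [hN1, Nat.lt_iff_add_one_le, Nat.le_div_iff_mul_le hd]
      have h8 : (j / d + 1) * d = d * (j / d) + d := by ring
      omega
    · rintro ⟨i, hi, rfl⟩
      rw [hN1, Nat.lt_iff_add_one_le, Nat.le_div_iff_mul_le hd] at hi
      have h8 : (i + 1) * d = d * i + d := by ring
      refine ⟨by omega, ?_⟩
      rw [← add_assoc]
      exact (Nat.dvd_add_right hdvd0).mpr (dvd_mul_right d i)
  have hinj : Set.InjOn (fun i => j0 + d * i) (range N1 : Set ℕ) := by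
    intro a _ b _ h
    have h1 : j0 + d * a = j0 + d * b := h
    exact Nat.eq_of_mul_eq_mul_left hd (by omega)
  have hcard : ((range N).filter (fun j => d ∣ c + j)).card = N1 := by
    rw [hset, card_image_of_injOn hinj, card_range]
  refine ⟨j0, fun h => ?_, ?_⟩
  · rw [hcard, hset, sum_image hinj]
  · rw [hcard]
    have hdR : (0 : ℝ) < d := by exact_mod_cast hd
    have h1 : N1 * d ≤ N + (d - 1 - j0) := Nat.div_mul_le_self _ _
    have h2 : N + (d - 1 - j0) < N1 * d + d := by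
      have := Nat.lt_div_mul_add (a := N + (d - 1 - j0)) hd
      exact this
    have h3 : (N1 * d : ℕ) ≤ N + d := by omega
    have h4 : N ≤ N1 * d + d := by omega
    have h3R : (N1 : ℝ) * d ≤ N + d := by exact_mod_cast h3
    have h4R : (N : ℝ) ≤ N1 * d + d := by exact_mod_cast h4
    rw [abs_le]
    constructor
    · rw [neg_le_sub_iff_le_add, div_le_iff₀ hdR]
      linarith
    · rw [sub_le_iff_le_add, ← sub_le_iff_le_add', le_div_iff₀ hdR]
      linarith

end Pool.Agent.H23.TM
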