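import Pool.Agent.H19.TM.Stm
import Pool.Graph.R_pool_sql_team_seeded_1acbe0a2.Y845.GM.CF

/-!
# Sums of random signs (modules RAD2, RAD3)
-/

set_option autoImplicit false

namespace Pool.Agent.H23.TM

open Finset Pool.Agent.Y862.GM Pool.Agent.H19.TM

lemma sg_mem {U : Finset ℕ} {h : ℕ} (hh : h ∈ U) : sg U h = 1 := if_pos hh

lemma sg_notMem {U : Finset ℕ} {h : ℕ} (hh : h ∉ U) : sg U h = -1 := if_neg hh

/-- **RAD3** -/
theorem t_RAD3 : S_RAD3 := by
  intro d L a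
  have h1 : ∀ U ∈ (Ioc 0 L).powerset, (pw d L U : ℂ) *
      Complex.exp (Complex.I * ((∑ h ∈ Ioc 0 L, a h * sg U h : ℝ) : ℂ)) =
      ∏ h ∈ Ioc 0 L, (if h ∈ U then ((1 + d) / 2 : ℂ) * Complex.exp (Complex.I * (a h : ℂ))
        else ((1 - d) / 2 : ℂ) * Complex.exp (-(Complex.I * (a h : ℂ)))) := by
    intro U _
    rw [pw]
    push_cast
    rw [Finset.mul_sum, Complex.exp_sum, ← Finset.prod_mul_distrib]
    refine Finset.prod_congr rfl fun h _ => ?_
    by_cases hh : h ∈ U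
    · rw [if_pos hh, if_pos hh, sg_mem hh]
      push_cast
      rw [mul_one]
    · rw [if_neg hh, if_neg hh, sg_notMem hh]
      push_cast
      rw [mul_neg, mul_one, mul_neg]
  rw [Finset.sum_congr rfl h1, Pool.Agent.Y845.GM.sum_powerset_prod]
  refine Finset.prod_congr rfl fun h _ => ?_
  push_cast
  rw [mul_comm Complex.I (a h : ℂ), Complex.exp_mul_I, ← neg_mul, Complex.exp_mul_I,
    Complex.cos_neg, Complex.sin_neg]
  ring

lemma exp_le_add_exp_sq (v : ℝ) : Real.exp v ≤ v + Real.exp (v ^ 2) := by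
  have h0 : v ^ 2 + 1 ≤ Real.exp (v ^ 2) := Real.add_one_le_exp _
  rcases le_or_gt |v| 1 with h | h
  · have h1 := (abs_le.1 (Real.abs_exp_sub_one_sub_id_le h)).2
    linarith
  · rcases lt_abs.1 h with h | h
    · have h1 : Real.exp v ≤ Real.exp (v ^ 2) := Real.exp_le_exp.2 (by nlinarith)
      linarith
    · have h1 : Real.exp v ≤ 1 := Real.exp_le_one_iff.2 (by linarith)
      nlinarith

lemma pw_nonneg {d : ℝ} (h0 : 0 ≤ d) (h1 : d ≤ 1) (L : ℕ) (U : Finset ℕ) : 0 ≤ pw d L U := by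
  refine Finset.prod_nonneg fun h _ => ?_
  split_ifs <;> linarith

lemma pow_le_factorial (x : ℝ) (m : ℕ) :
    x ^ (2 * m) ≤ (2 * m).factorial * (Real.exp x + Real.exp (-x)) := by
  have hf : (0 : ℝ) < (2 * m).factorial := by exact_mod_cast Nat.factorial_pos _
  rcases le_total 0 x with h | h
  · have h1 := Real.pow_div_factorial_le_exp x h (2 * m)
    rw [div_le_iff₀ hf] at h1
    have h2 := mul_nonneg hf.le (Real.exp_pos (-x)).le
    linarith
  · have h1 := Real.pow_div_factorial_le_exp (-x) (by linarith) (2 * m)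
    rw [div_le_iff₀ hf] at h1
    have h3 : (-x) ^ (2 * m) = x ^ (2 * m) := by rw [pow_mul, pow_mul, neg_sq]
    rw [h3] at h1
    have h2 := mul_nonneg hf.le (Real.exp_pos x).le
    linarith

lemma mgf_le (d : ℝ) (L : ℕ) (c : ℕ → ℝ) (h0 : 0 ≤ d) (h1 : d ≤ 1) :
    ∑ U ∈ (Ioc 0 L).powerset, pw d L U * Real.exp (∑ h ∈ Ioc 0 L, c h * (sg U h - d)) ≤
      Real.exp (4 * ∑ h ∈ Ioc 0 L, c h ^ 2) := by
  have e1 : ∀ U ∈ (Ioc 0 L).powerset, pw d L U *
      Real.exp (∑ h ∈ Ioc 0 L, c h * (sg U h - d)) =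
      ∏ h ∈ Ioc 0 L, (if h ∈ U then (1 + d) / 2 * Real.exp (c h * (1 - d))
        else (1 - d) / 2 * Real.exp (c h * (-1 - d))) := by
    intro U _
    rw [pw, Real.exp_sum, ← Finset.prod_mul_distrib]
    refine Finset.prod_congr rfl fun h _ => ?_
    by_cases hh : h ∈ U
    · rw [if_pos hh, if_pos hh, sg_mem hh]
    · rw [if_neg hh, if_neg hh, sg_notMem hh]
  rw [Finset.sum_congr rfl e1, Pool.Agent.Y845.GM.sum_powerset_prod, Finset.mul_sum, Real.exp_sum]
  refine Finset.prod_le_prod (fun h _ => ?_) fun h _ => ?_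
  · have h2 : 0 ≤ (1 + d) / 2 := by linarith
    have h3 : 0 ≤ (1 - d) / 2 := by linarith
    positivity
  · have h2 := exp_le_add_exp_sq (c h * (1 - d))
    have h3 := exp_le_add_exp_sq (c h * (-1 - d))
    have h4 : Real.exp ((c h * (1 - d)) ^ 2) ≤ Real.exp (4 * c h ^ 2) := by
      refine Real.exp_le_exp.2 ?_
      rw [mul_pow, mul_comm]
      exact mul_le_mul_of_nonneg_right (by nlinarith) (sq_nonneg _)
    have h5 : Real.exp ((c h * (-1 - d)) ^ 2) ≤ Real.exp (4 * c h ^ 2) := by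
      refine Real.exp_le_exp.2 ?_
      rw [mul_pow, mul_comm]
      exact mul_le_mul_of_nonneg_right (by nlinarith) (sq_nonneg _)
    have h6 : (1 + d) / 2 * Real.exp (c h * (1 - d)) ≤
        (1 + d) / 2 * (c h * (1 - d) + Real.exp (4 * c h ^ 2)) :=
      mul_le_mul_of_nonneg_left (by linarith) (by linarith)
    have h7 : (1 - d) / 2 * Real.exp (c h * (-1 - d)) ≤
        (1 - d) / 2 * (c h * (-1 - d) + Real.exp (4 * c h ^ 2)) :=
      mul_le_mul_of_nonneg_left (by linarith) (by linarith)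
    calc _ ≤ (1 + d) / 2 * (c h * (1 - d) + Real.exp (4 * c h ^ 2)) +
          (1 - d) / 2 * (c h * (-1 - d) + Real.exp (4 * c h ^ 2)) := add_le_add h6 h7
      _ = Real.exp (4 * c h ^ 2) := by ring

/-- **RAD2** -/
theorem t_RAD2 : S_RAD2 := by
  intro d L m a h0 h1
  rw [le_div_iff₀ (by positivity), Finset.sum_mul]
  have e1 : ∀ U ∈ (Ioc 0 L).powerset,
      pw d L U * (∑ h ∈ Ioc 0 L, a h * (sg U h - d)) ^ (2 * m) * 8 ^ (2 * m) ≤
      (2 * m).factorial * (pw d L U * Real.exp (∑ h ∈ Ioc 0 L, (8 * a h) * (sg U h - d)) +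
        pw d L U * Real.exp (∑ h ∈ Ioc 0 L, (-8 * a h) * (sg U h - d))) := by
    intro U _
    have h2 := pow_le_factorial (8 * ∑ h ∈ Ioc 0 L, a h * (sg U h - d)) m
    have e2 : 8 * ∑ h ∈ Ioc 0 L, a h * (sg U h - d) =
        ∑ h ∈ Ioc 0 L, (8 * a h) * (sg U h - d) := by
      rw [Finset.mul_sum]
      exact Finset.sum_congr rfl fun h _ => by ring
    have e3 : -(8 * ∑ h ∈ Ioc 0 L, a h * (sg U h - d)) =
        ∑ h ∈ Ioc 0 L, (-8 * a h) * (sg U h - d) := by
      rw [Finset.mul_sum, ← Finset.sum_neg_distrib]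
      exact Finset.sum_congr rfl fun h _ => by ring
    calc _ = pw d L U * (8 * ∑ h ∈ Ioc 0 L, a h * (sg U h - d)) ^ (2 * m) := by
          rw [mul_pow]; ring
      _ ≤ pw d L U * ((2 * m).factorial * (Real.exp (8 * ∑ h ∈ Ioc 0 L, a h * (sg U h - d)) +
          Real.exp (-(8 * ∑ h ∈ Ioc 0 L, a h * (sg U h - d))))) :=
          mul_le_mul_of_nonneg_left h2 (pw_nonneg h0 h1 L U)
      _ = _ := by rw [e3, e2]; ring
  refine (Finset.sum_le_sum e1).trans ?_
  rw [← Finset.mul_sum, Finset.sum_add_distrib]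
  refine mul_le_mul_of_nonneg_left ?_ (by positivity)
  have h2 := mgf_le d L (fun h => 8 * a h) h0 h1
  have h3 := mgf_le d L (fun h => -8 * a h) h0 h1
  have e2 : 4 * ∑ h ∈ Ioc 0 L, (8 * a h) ^ 2 = 256 * ∑ h ∈ Ioc 0 L, a h ^ 2 := by
    rw [Finset.mul_sum, Finset.mul_sum]
    exact Finset.sum_congr rfl fun h _ => by ring
  have e3 : 4 * ∑ h ∈ Ioc 0 L, (-8 * a h) ^ 2 = 256 * ∑ h ∈ Ioc 0 L, a h ^ 2 := by
    rw [Finset.mul_sum, Finset.mul_sum]
    exact Finset.sum_congr rfl fun h _ => by ring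
  rw [e2] at h2
  rw [e3] at h3
  linarith

end Pool.Agent.H23.TM
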