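import Pool.Agent.H23.TM.Tup

/-!
# Mertens for `V` (module VV)
-/

set_option autoImplicit false

namespace Pool.Agent.H23.TM

open Finset Pool.Agent.Y862.GM Pool.Agent.H19.TM

lemma log_one_sub_bounds {p : ℕ} (hp : p.Prime) :
    Real.log (1 - 1 / (p : ℝ)) ≤ -(1 / (p : ℝ)) ∧
      -(1 / (p : ℝ)) - 2 * ((p : ℝ) ^ 2)⁻¹ ≤ Real.log (1 - 1 / (p : ℝ)) := by
  have hp2 : (2 : ℝ) ≤ p := by exact_mod_cast hp.two_le
  have hp0 : (0 : ℝ) < p := by linarith
  have hx : 0 < 1 - 1 / (p : ℝ) := by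
    have : (1 : ℝ) / p < 1 := by rw [div_lt_one hp0]; linarith
    linarith
  constructor
  · have := Real.log_le_sub_one_of_pos hx
    linarith
  · have h1 := Real.one_sub_inv_le_log_of_pos hx
    refine le_trans ?_ h1
    have h2 : 1 - (1 - 1 / (p : ℝ))⁻¹ = -(1 / ((p : ℝ) - 1)) := by
      have h3 : (p : ℝ) - 1 ≠ 0 := by linarith
      have h4 : 1 - 1 / (p : ℝ) = (p - 1) / p := by field_simp
      rw [h4, inv_div]
      field_simp
      ring
    rw [h2]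
    have h5 : 1 / ((p : ℝ) - 1) ≤ 1 / (p : ℝ) + 2 * ((p : ℝ) ^ 2)⁻¹ := by
      rw [← one_div, mul_one_div, div_add_div _ _ hp0.ne' (by positivity), div_le_div_iff₀
        (by linarith) (by positivity)]
      nlinarith
    linarith

/-- **VV**, from the theorem of Mertens -/
theorem t_VV (hM : S_MERT) : S_VV := by
  obtain ⟨CM, hCM⟩ := hM
  refine ⟨Real.exp (-(2 * CM + 8)), Real.exp (2 * CM), Real.exp_pos _, Real.exp_pos _, ?_⟩
  intro y hy
  have hy3 : (3 : ℝ) ≤ y := by exact_mod_cast hy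
  have hly : 0 < Real.log y := Real.log_pos (by linarith)
  have h1 := abs_le.1 (hCM y hy)
  have hsq : ∑ p ∈ pr y, ((p : ℝ) ^ 2)⁻¹ ≤ 2 := by
    calc ∑ p ∈ pr y, ((p : ℝ) ^ 2)⁻¹ ≤ ∑ p ∈ Ioo 0 (y + 1), ((p : ℝ) ^ 2)⁻¹ := by
          refine Finset.sum_le_sum_of_subset_of_nonneg ?_ fun p _ _ => by positivity
          intro p hp
          have := Pool.Agent.Y71.GM.mem_pr.1 hp
          rw [mem_Ioo]
          exact ⟨this.2.pos, Nat.lt_succ_iff.2 this.1⟩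
      _ ≤ 2 / ((0 : ℕ) + 1) := sum_Ioo_inv_sq_le 0 (y + 1)
      _ = 2 := by norm_num
  have hV : V (pr y) = Real.exp (2 * ∑ p ∈ pr y, Real.log (1 - 1 / (p : ℝ))) := by
    rw [V, Finset.mul_sum, Real.exp_sum]
    refine Finset.prod_congr rfl fun p hp => ?_
    have hp' := (Pool.Agent.Y71.GM.mem_pr.1 hp).2
    have hp2 : (2 : ℝ) ≤ p := by exact_mod_cast hp'.two_le
    have hx : 0 < 1 - 1 / (p : ℝ) := by
      have : (1 : ℝ) / p < 1 := by rw [div_lt_one (by linarith)]; linarith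
      linarith
    rw [show (2 : ℝ) * Real.log (1 - 1 / (p : ℝ)) = ((2 : ℕ) : ℝ) * Real.log (1 - 1 / (p : ℝ)) by
      norm_num, Real.exp_nat_mul, Real.exp_log hx]
  have hup : ∑ p ∈ pr y, Real.log (1 - 1 / (p : ℝ)) ≤ -Real.log (Real.log y) + CM := by
    calc ∑ p ∈ pr y, Real.log (1 - 1 / (p : ℝ)) ≤ ∑ p ∈ pr y, -(1 / (p : ℝ)) :=
          Finset.sum_le_sum fun p hp =>
            (log_one_sub_bounds (Pool.Agent.Y71.GM.mem_pr.1 hp).2).1
      _ = -∑ p ∈ pr y, 1 / (p : ℝ) := Finset.sum_neg_distrib _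
      _ ≤ _ := by linarith [h1.1]
  have hlow : -Real.log (Real.log y) - CM - 4 ≤ ∑ p ∈ pr y, Real.log (1 - 1 / (p : ℝ)) := by
    calc -Real.log (Real.log y) - CM - 4 ≤ -∑ p ∈ pr y, 1 / (p : ℝ) -
          2 * ∑ p ∈ pr y, ((p : ℝ) ^ 2)⁻¹ := by linarith [h1.2]
      _ = ∑ p ∈ pr y, (-(1 / (p : ℝ)) - 2 * ((p : ℝ) ^ 2)⁻¹) := by
          rw [Finset.sum_sub_distrib, Finset.sum_neg_distrib, Finset.mul_sum]
      _ ≤ _ := Finset.sum_le_sum fun p hp =>
            (log_one_sub_bounds (Pool.Agent.Y71.GM.mem_pr.1 hp).2).2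
  have hexp : ∀ x : ℝ, Real.exp (2 * (-Real.log (Real.log y) + x)) =
      Real.exp (2 * x) / Real.log y ^ 2 := by
    intro x
    rw [mul_add, Real.exp_add, show (2 : ℝ) * -Real.log (Real.log y) =
      -(((2 : ℕ) : ℝ) * Real.log (Real.log y)) by push_cast; ring, Real.exp_neg,
      Real.exp_nat_mul, Real.exp_log hly]
    field_simp
  constructor
  · rw [hV]
    have h2 := hexp (-CM - 4)
    rw [show 2 * (-CM - 4) = -(2 * CM + 8) by ring] at h2
    rw [← h2]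
    exact Real.exp_le_exp.2 (by linarith)
  · rw [hV, ← hexp]
    exact Real.exp_le_exp.2 (by linarith)

end Pool.Agent.H23.TM
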